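import Pool.Agent.Run7.h325.Hub

set_option autoImplicit false

/-!
# The descent
-/

namespace Run7.h325

variable {V : Type*} {G : SimpleGraph V}

/-- a hub configuration: `v` is heavy with witness `W`, the vertex `x ∈ W` is adjacent to all
neighbours of `v`, and `q0` is a further vertex of `W` -/
structure Conf (G : SimpleGraph V) (v : V) (W : Set V) (x q0 : V) : Prop where
  hw : HW G v W
  hx : x ∈ W
  cov : ∀ s, G.Adj v s → G.Adj x s
  hq : q0 ∈ W
  hqx : q0 ≠ x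

/-- the piece of a hub configuration -/
def piece (G : SimpleGraph V) (W : Set V) (x q0 : V) : Set V := cmp G {y | y ∈ W ∧ y ≠ x} q0

theorem Conf.base_mem {v : V} {W : Set V} {x q0 : V} (c : Conf G v W x q0) :
    q0 ∈ ({y | y ∈ W ∧ y ≠ x} : Set V) := ⟨c.hq, c.hqx⟩

theorem Conf.piece_sub {v : V} {W : Set V} {x q0 : V} (c : Conf G v W x q0) :
    piece G W x q0 ⊆ {y | y ∈ W ∧ y ≠ x} := cmp_subset c.base_mem

/-- the piece is attached to the hub -/
theorem Conf.att_hub {v : V} {W : Set V} {x q0 : V} (c : Conf G v W x q0) :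
    ∃ q ∈ piece G W x q0, G.Adj x q := by
  obtain ⟨q, hq, y, hy, hyQ, _, hqy⟩ := c.hw.conn.exists_edge (C := piece G W x q0) (x := q0)
    (y := x) c.hq (mem_cmp_self _ _) c.hx (fun hc => (c.piece_sub hc).2 rfl)
  by_cases hyx : y = x
  · subst hyx
    exact ⟨q, hq, hqy.symm⟩
  · exact absurd (cmp_closed c.base_mem hq hqy ⟨hy, hyx⟩) hyQ

/-- the piece is attached to a neighbour of `v` -/
theorem Conf.att_nbr (h : Base G) {v : V} {W : Set V} {x q0 : V} (c : Conf G v W x q0) :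
    ∃ q ∈ piece G W x q0, ∃ a, G.Adj v a ∧ G.Adj a q := by
  have hvx : v ≠ x := by
    rintro rfl
    exact c.hw.not_mem c.hx
  obtain ⟨q, hq, y, hy, hyQ, _, hqy⟩ := (h.c2 x).exists_edge (C := piece G W x q0) (x := q0)
    (y := v) c.hqx (mem_cmp_self _ _) hvx (fun hc => c.hw.not_mem (c.piece_sub hc).1)
  by_cases hyW : y ∈ W
  · exact absurd (cmp_closed c.base_mem hq hqy ⟨hyW, hy⟩) hyQ
  · exact ⟨q, hq, y, c.hw.nbr (c.piece_sub hq).1 hyW hqy, hqy.symm⟩

/-- at most two neighbours of `v` are attached to the piece -/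
theorem Conf.three (h : Bad2 G) {v : V} {W : Set V} {x q0 : V} (c : Conf G v W x q0)
    {a b d : V} (hab : a ≠ b) (had : a ≠ d) (hbd : b ≠ d) (ha : G.Adj v a) (hb : G.Adj v b)
    (hd : G.Adj v d) (qa : ∃ q ∈ piece G W x q0, G.Adj a q)
    (qb : ∃ q ∈ piece G W x q0, G.Adj b q) (qd : ∃ q ∈ piece G W x q0, G.Adj d q) : False := by
  obtain ⟨v', hv'v, hv'W, hvv'⟩ := c.hw.other
  have htw : ∀ z, G.Adj v' z ↔ G.Adj v z := c.hw.twin v' hv'W hvv'
  obtain ⟨q1, hq1, hq1'⟩ := qa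
  obtain ⟨q2, hq2, hq2'⟩ := qb
  obtain ⟨q3, hq3, hq3'⟩ := qd
  obtain ⟨q4, hq4, hq4'⟩ := c.att_hub
  have hne : ∀ z ∈ W, ∀ p, p ∉ W → z ≠ p := by
    rintro z hz p hp rfl
    exact hp hz
  refine h.nk.false_of_twins (w := v) (w' := v') (a := a) (b := b) (c := d) hv'v.symm hab had hbd
    ha hb hd ((htw a).2 ha) ((htw b).2 hb) ((htw d).2 hd) (P := {x}) (Q := piece G W x q0)
    ⟨x, rfl⟩ ⟨q0, mem_cmp_self _ _⟩ (conn_singleton x) (cmp_conn _ _) ?_ ?_ ?_ ?_ ?_ ?_ ?_ ?_ ?_ ?_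
  · intro p hp hpQ
    have hp' : p = x := hp
    subst hp'
    exact (c.piece_sub hpQ).2 rfl
  · intro p hp
    have hp' : p = x := hp
    subst hp'
    exact ⟨(c.cov a ha).ne, (c.cov b hb).ne, (c.cov d hd).ne, hne _ c.hx v c.hw.not_mem,
      hne _ c.hx v' hv'W⟩
  · intro p hp
    have hpW := (c.piece_sub hp).1
    exact ⟨hne p hpW a (c.hw.nbr_not_mem a ha), hne p hpW b (c.hw.nbr_not_mem b hb),
      hne p hpW d (c.hw.nbr_not_mem d hd), hne p hpW v c.hw.not_mem, hne p hpW v' hv'W⟩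
  · exact ⟨x, rfl, c.cov a ha⟩
  · exact ⟨x, rfl, c.cov b hb⟩
  · exact ⟨x, rfl, c.cov d hd⟩
  · exact ⟨q1, hq1, hq1'.symm⟩
  · exact ⟨q2, hq2, hq2'.symm⟩
  · exact ⟨q3, hq3, hq3'.symm⟩
  · exact ⟨x, rfl, q4, hq4, hq4'⟩

/-- a nonheavy vertex not adjacent to a heavy vertex lies in its witness -/
theorem HW.mem_of_not_heavy {v x : V} {W : Set V} (hv : HW G v W) (hvx : ¬ G.Adj v x)
    (hx : ¬ Heavy G x) : x ∈ W := by
  by_contra hc
  apply hx
  by_cases hxv : x = v
  · subst hxv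
    exact ⟨W, hv⟩
  · exact ⟨W, hv.twin' hc hvx hxv⟩

/-- some neighbour of `v` is not adjacent to a given vertex of the piece -/
theorem Conf.exists_free (h : Bad2 G) {v : V} {W : Set V} {x q0 : V} (c : Conf G v W x q0)
    (h3 : T3 G v) {u : V} (hu : u ∈ piece G W x q0) : ∃ s, G.Adj v s ∧ ¬ G.Adj u s := by
  by_contra hc
  push Not at hc
  obtain ⟨a, b, d, hab, had, hbd, ha, hb, hd⟩ := h3
  exact c.three h hab had hbd ha hb hd ⟨u, hu, (hc a ha).symm⟩ ⟨u, hu, (hc b hb).symm⟩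
    ⟨u, hu, (hc d hd).symm⟩

/-- everything outside the piece is seen by the component of `v` in `nn u`, for `u` in the
piece -/
theorem Conf.outside (h : Bad2 G) {v : V} {W : Set V} {x q0 : V} (c : Conf G v W x q0)
    (h3 : T3 G v) {u : V} (hu : u ∈ piece G W x q0) {y : V} (hy : y ∉ cmp G (nn G u) v)
    (hy' : ∀ z ∈ cmp G (nn G u) v, ¬ G.Adj z y) : y ∈ piece G W x q0 := by
  have huW := (c.piece_sub hu).1
  have hux := (c.piece_sub hu).2
  have hvu : v ∈ nn G u := by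
    constructor
    · rintro rfl
      exact c.hw.not_mem huW
    · intro hc
      exact c.hw.nbr_not_mem u hc.symm huW
  obtain ⟨s0, hs0, hs0'⟩ := c.exists_free h h3 hu
  have hs0nn : s0 ∈ nn G u := by
    refine ⟨?_, hs0'⟩
    rintro rfl
    exact c.hw.nbr_not_mem _ hs0 huW
  have hvZ : v ∈ cmp G (nn G u) v := mem_cmp_self _ _
  have hs0Z : s0 ∈ cmp G (nn G u) v := cmp_closed hvu hvZ hs0 hs0nn
  by_contra hyQ
  by_cases hyx : y = x
  · subst hyx
    exact hy' s0 hs0Z (c.cov s0 hs0).symm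
  by_cases hyW : y ∈ W
  · -- `y` lies in another piece
    have cy : Conf G v W x y := ⟨c.hw, c.hx, c.cov, hyW, hyx⟩
    have hdis : ∀ q ∈ piece G W x y, q ∉ piece G W x q0 := by
      intro q hq hq'
      apply hyQ
      have e1 : piece G W x q = piece G W x y := cmp_eq hq
      have e2 : piece G W x q = piece G W x q0 := cmp_eq hq'
      rw [← e2, e1]
      exact mem_cmp_self _ _
    have hQnn : piece G W x y ⊆ nn G u := by
      intro q hq
      constructor
      · rintro rfl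
        exact hdis _ hq hu
      · intro hc
        exact hdis q hq (cmp_closed c.base_mem hu hc (cy.piece_sub hq))
    have key : ∀ q ∈ piece G W x y, ∀ z ∈ cmp G (nn G u) v, G.Adj z q → False := by
      intro q hq z hz hzq
      have hqZ : q ∈ cmp G (nn G u) v := cmp_closed hvu hz hzq (hQnn hq)
      apply hy
      have : RS G (nn G u) q y := RS.mono hQnn (cmp_conn _ _ q hq y (mem_cmp_self _ _))
      exact RS.trans (G := G) hqZ this
    obtain ⟨q1, hq1, hxq1⟩ := cy.att_hub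
    obtain ⟨q2, hq2, a, hva, haq2⟩ := cy.att_nbr h.toBase
    by_cases hux' : G.Adj u x
    · have hua : ¬ G.Adj u a := h.tf u x a hux' (c.cov a hva)
      have hann : a ∈ nn G u := by
        refine ⟨?_, hua⟩
        rintro rfl
        exact c.hw.nbr_not_mem _ hva huW
      exact key q2 hq2 a (cmp_closed hvu hvZ hva hann) haq2
    · have hxnn : x ∈ nn G u := ⟨hux.symm, hux'⟩
      exact key q1 hq1 x (cmp_closed hvu hs0Z (c.cov s0 hs0).symm hxnn) hxq1
  · by_cases hvy : G.Adj v y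
    · exact hy' v hvZ hvy
    · have : G.Adj y s0 := (c.hw.twin y hyW hvy s0).2 hs0
      exact hy' s0 hs0Z this.symm

/-- from the outcome of the hub lemma to the next configuration: the component `Z` lies in the
new witness -/
theorem HW.comp_sub {v2 x2 : V} {W2 : Set V} (h2 : HW G v2 W2)
    (hcov : ∀ s, G.Adj v2 s → G.Adj x2 s) {Z : Set V} (hZc : Conn G Z) (hZs : Z ⊆ nn G x2)
    {r z1 : V} (hr : r ∈ Z) (hz1 : z1 ∈ Z) (hne : z1 ≠ r) : Z ⊆ {y | y ∈ W2 ∧ y ≠ x2} := by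
  intro z hz
  refine ⟨?_, (hZs hz).1⟩
  by_contra hzW
  by_cases hvz : G.Adj v2 z
  · exact (hZs hz).2 (hcov z hvz)
  · obtain ⟨z', hz', hzz'⟩ : ∃ z' ∈ Z, G.Adj z z' := by
      by_cases hzr : z = r
      · exact hZc.exists_nbr hz hz1 (hzr ▸ hne)
      · exact hZc.exists_nbr hz hr (fun hh => hzr hh.symm)
    exact (hZs hz').2 (hcov z' ((h2.twin z hzW hvz z').1 hzz'))

/-- from a covering vertex to the next configuration -/
theorem Bad2.next (h : Bad2 G) {v2 x2 r : V} {W2 : Set V} (hW2 : HW G v2 W2) (h3 : T3 G v2)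
    (hx2W : x2 ∈ W2) (hcov : ∀ s, G.Adj v2 s → G.Adj x2 s) (hrD : r ∈ W2 ∧ r ≠ x2) :
    ∃ z0, Conf G v2 W2 x2 z0 ∧ ∀ q ∈ piece G W2 x2 z0, q ∉ piece G W2 x2 r := by
  have hv2x2 : v2 ≠ x2 := by
    rintro rfl
    exact hW2.not_mem hx2W
  have cA : Conf G v2 W2 x2 r := ⟨hW2, hx2W, hcov, hrD.1, hrD.2⟩
  -- a neighbour of `v2` not attached to the piece of `r`
  obtain ⟨a2, ha2, ha2'⟩ : ∃ a2, G.Adj v2 a2 ∧ ∀ q ∈ piece G W2 x2 r, ¬ G.Adj a2 q := by
    by_contra hc
    push Not at hc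
    obtain ⟨a, b, d, hab, had, hbd, ha, hb, hd⟩ := h3
    obtain ⟨qa, hqa⟩ := hc a ha
    obtain ⟨qb, hqb⟩ := hc b hb
    obtain ⟨qd, hqd⟩ := hc d hd
    exact cA.three h hab had hbd ha hb hd ⟨qa, hqa⟩ ⟨qb, hqb⟩ ⟨qd, hqd⟩
  obtain ⟨z0, hz0, hz0'⟩ := h.exists_comp hW2 ha2
  set Z' := cmp G (nn G a2) z0 with hZ'
  have hZ's : Z' ⊆ nn G a2 := cmp_subset hz0
  have hx2a2 : G.Adj x2 a2 := hcov a2 ha2
  have hZ'D : Z' ⊆ {y | y ∈ W2 ∧ y ≠ x2} := by
    intro z hz
    constructor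
    · by_contra hzW
      have : G.Adj z a2 := (hW2.twin z hzW (hz0' z hz) a2).2 ha2
      exact (hZ's hz).2 this.symm
    · rintro rfl
      exact (hZ's hz).2 hx2a2.symm
  have hz0Z' : z0 ∈ Z' := mem_cmp_self _ _
  have c2 : Conf G v2 W2 x2 z0 := ⟨hW2, hx2W, hcov, (hZ'D hz0Z').1, (hZ'D hz0Z').2⟩
  have hZ'Q : Z' ⊆ piece G W2 x2 z0 := (cmp_conn _ _ : Conn G Z').subset_cmp hZ'D hz0Z'
  -- `a2` is attached to the new piece
  obtain ⟨y, hyQ, ha2y⟩ : ∃ y ∈ piece G W2 x2 z0, G.Adj a2 y := by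
    have hv2Z' : v2 ∉ Z' := fun hc => (hZ's hc).2 ha2.symm
    obtain ⟨z', hz', y, hy, hyZ', _, hz'y⟩ := (h.c2 x2).exists_edge (C := Z') (x := z0) (y := v2)
      (hZ'D hz0Z').2 hz0Z' hv2x2 hv2Z'
    have hya2 : G.Adj a2 y := by
      by_contra hc
      apply hyZ'
      refine cmp_closed hz0 hz' hz'y ⟨?_, hc⟩
      rintro rfl
      exact (hZ's hz').2 hz'y.symm
    have hyW : y ∈ W2 := by
      by_contra hyW
      by_cases hvy : G.Adj v2 y
      · exact h.tf v2 a2 y ha2 hya2 hvy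
      · exact hz0' z' hz' ((hW2.twin y hyW hvy z').1 hz'y.symm)
    exact ⟨y, cmp_closed c2.base_mem (hZ'Q hz') hz'y ⟨hyW, hy⟩, hya2⟩
  refine ⟨z0, c2, ?_⟩
  intro q hq hq'
  have e1 : piece G W2 x2 q = piece G W2 x2 z0 := cmp_eq hq
  have e2 : piece G W2 x2 q = piece G W2 x2 r := cmp_eq hq'
  exact ha2' y (e2 ▸ e1 ▸ hyQ) ha2y

/-- **The descent**: there is no hub configuration at a vertex with three neighbours whose piece
contains no heavy vertex with fewer than three neighbours. -/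
theorem Bad2.no_conf [Finite V] (h : Bad2 G) : ∀ n : ℕ, ∀ (v : V) (W : Set V) (x q0 : V),
    Conf G v W x q0 → T3 G v → (∀ q ∈ piece G W x q0, Heavy G q → T3 G q) →
    (piece G W x q0).ncard = n → False := by
  intro n
  induction n using Nat.strong_induction_on with
  | _ n ih =>
  intro v W x q0 c h3 hT hn
  set Q := piece G W x q0 with hQ
  have hvu : ∀ u ∈ Q, v ∈ nn G u := by
    intro u hu
    have huW := (c.piece_sub hu).1
    constructor
    · rintro rfl
      exact c.hw.not_mem huW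
    · intro hc
      exact c.hw.nbr_not_mem u hc.symm huW
  have hbig : ∀ u ∈ Q, ∃ z ∈ cmp G (nn G u) v, z ≠ v := by
    intro u hu
    obtain ⟨s0, hs0, hs0'⟩ := c.exists_free h h3 hu
    refine ⟨s0, cmp_closed (hvu u hu) (mem_cmp_self _ _) hs0 ⟨?_, hs0'⟩, hs0.ne.symm⟩
    rintro rfl
    exact c.hw.nbr_not_mem _ hs0 (c.piece_sub hu).1
  have hnh : ∃ u ∈ Q, ¬ Heavy G u := by
    obtain ⟨q1, hq1, hxq1⟩ := c.att_hub
    obtain ⟨q2, hq2, a, hva, haq2⟩ := c.att_nbr h.toBase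
    have hne : q2 ≠ q1 := by
      rintro rfl
      exact h.tf x a q2 (c.cov a hva) haq2 hxq1
    obtain ⟨q3, hq3, hq13⟩ := (cmp_conn _ _ : Conn G Q).exists_nbr hq1 hq2 hne
    by_cases hH : Heavy G q1
    · exact ⟨q3, hq3, fun hH' => h.heavy_indep hH hH' hq13⟩
    · exact ⟨q1, hq1, hH⟩
  obtain ⟨x2, hx2Q, hx2H, v2, ⟨W2, hW2⟩, hv2nn, hv2Z, hcov⟩ :=
    h.hub v Q hvu (fun u hu y hy hy' => c.outside h h3 hu hy hy') hbig hT hnh
  set Z := cmp G (nn G x2) v with hZ
  have hvZ : v ∈ Z := mem_cmp_self _ _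
  have hZc : Conn G Z := cmp_conn _ _
  have hZs : Z ⊆ nn G x2 := cmp_subset (hvu x2 hx2Q)
  obtain ⟨z1, hz1, hz1v⟩ := hbig x2 hx2Q
  have hx2W : x2 ∈ W2 := hW2.mem_of_not_heavy (fun hc => hv2nn.2 hc.symm) hx2H
  have hZD : Z ⊆ {y | y ∈ W2 ∧ y ≠ x2} := hW2.comp_sub hcov hZc hZs hvZ hz1 hz1v
  have cA : Conf G v2 W2 x2 v := ⟨hW2, hx2W, hcov, (hZD hvZ).1, (hZD hvZ).2⟩
  have hZA : Z ⊆ piece G W2 x2 v := hZc.subset_cmp hZD hvZ
  have hv2Q : v2 ∈ Q := c.outside h h3 hx2Q hv2Z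
    (fun z hz hc => hv2Z (cmp_closed (hvu x2 hx2Q) hz hc hv2nn))
  have h32 : T3 G v2 := hT v2 hv2Q ⟨W2, hW2⟩
  obtain ⟨z0, c2, hdis⟩ := h.next hW2 h32 hx2W hcov (hZD hvZ)
  have hsub : piece G W2 x2 z0 ⊆ Q := by
    intro q hq
    have hqD := c2.piece_sub hq
    refine c.outside h h3 hx2Q (y := q) ?_ ?_
    · intro hqZ
      exact hdis q hq (hZA hqZ)
    · intro z hz hzq
      exact hdis q hq (cmp_closed cA.base_mem (hZA hz) hzq hqD)
  have hlt : (piece G W2 x2 z0).ncard < Q.ncard := by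
    apply Set.ncard_lt_ncard _ (Set.toFinite _)
    refine ⟨hsub, fun hc => ?_⟩
    exact (c2.piece_sub (hc hx2Q)).2 rfl
  exact ih _ (hn ▸ hlt) v2 W2 x2 z0 c2 h32 (fun q hq => hT q (hsub hq)) rfl

/-- from a covering vertex to a configuration (only connectivity) -/
theorem Bad2.exists_conf (h : Bad2 G) {v x : V} {W : Set V} (hv : HW G v W) (hx : x ∈ W)
    (hcov : ∀ s, G.Adj v s → G.Adj x s) : ∃ z0, Conf G v W x z0 := by
  obtain ⟨s, _, _, hs, _⟩ := h.two_nbrs v
  obtain ⟨z0, hz0, hz0'⟩ := h.exists_comp hv hs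
  have hz0W : z0 ∈ W := by
    by_contra hc
    have := (hv.twin z0 hc (hz0' z0 (mem_cmp_self _ _)) s).2 hs
    exact hz0.2 this.symm
  have hz0x : z0 ≠ x := by
    rintro rfl
    exact hz0.2 (hcov s hs).symm
  exact ⟨z0, hv, hx, hcov, hz0W, hz0x⟩

/-- The hypotheses `Bad2` are contradictory if every heavy vertex with fewer than three neighbours
is adjacent to `p`. -/
theorem Bad2.false_of_common [Finite V] (h : Bad2 G) (p : V)
    (hp : ∀ v, Heavy G v → ¬ T3 G v → G.Adj p v) : False := by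
  classical
  have hT : ∀ v, Heavy G v → ¬ G.Adj p v → T3 G v := by
    intro v hv hpv
    by_contra hc
    exact hpv (hp v hv hc)
  have hsymm : ∀ {u : V}, u ∈ nn G p → p ∈ nn G u :=
    fun hu => ⟨hu.1.symm, fun hc => hu.2 hc.symm⟩
  -- Case I
  by_cases hI : ∃ u ∈ nn G p, (∃ s, G.Adj p s ∧ ¬ G.Adj u s) ∧ ¬ Heavy G u
  · let Ω : Set V := {u | u ∈ nn G p ∧ ∃ s, G.Adj p s ∧ ¬ G.Adj u s}
    have hbig : ∀ u ∈ Ω, ∃ s ∈ cmp G (nn G u) p, G.Adj p s := by
      rintro u ⟨hu, s, hs, hus⟩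
      refine ⟨s, cmp_closed (hsymm hu) (mem_cmp_self _ _) hs ⟨?_, hus⟩, hs⟩
      rintro rfl
      exact hu.2 hs
    have hΩ2 : ∀ u ∈ Ω, ∀ y, y ∉ cmp G (nn G u) p → (∀ z ∈ cmp G (nn G u) p, ¬ G.Adj z y) →
        y ∈ Ω := by
      intro u hu y hy hy'
      obtain ⟨s, hsZ, hs⟩ := hbig u hu
      refine ⟨⟨?_, hy' p (mem_cmp_self _ _)⟩, s, hs, fun hc => hy' s hsZ hc.symm⟩
      rintro rfl
      exact hy (mem_cmp_self _ _)
    obtain ⟨u0, hu0, hs0, hH0⟩ := hI
    obtain ⟨x2, hx2Ω, hx2H, v2, ⟨W2, hW2⟩, hv2nn, hv2Z, hcov⟩ :=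
      h.hub p Ω (fun u hu => hsymm hu.1) hΩ2
        (fun u hu => by
          obtain ⟨s, hsZ, hs⟩ := hbig u hu
          exact ⟨s, hsZ, hs.ne.symm⟩)
        (fun u hu hH => hT u hH hu.1.2) ⟨u0, ⟨hu0, hs0⟩, hH0⟩
    set Z := cmp G (nn G x2) p with hZ
    have hpZ : p ∈ Z := mem_cmp_self _ _
    have hZc : Conn G Z := cmp_conn _ _
    have hZs : Z ⊆ nn G x2 := cmp_subset (hsymm hx2Ω.1)
    obtain ⟨z1, hz1, hz1p⟩ := hbig x2 hx2Ω
    have hx2W : x2 ∈ W2 := hW2.mem_of_not_heavy (fun hc => hv2nn.2 hc.symm) hx2H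
    have hZD : Z ⊆ {y | y ∈ W2 ∧ y ≠ x2} := hW2.comp_sub hcov hZc hZs hpZ hz1 hz1p.ne.symm
    have hv2Ω : v2 ∈ Ω := hΩ2 x2 hx2Ω v2 hv2Z
      (fun z hz hc => hv2Z (cmp_closed (hsymm hx2Ω.1) hz hc hv2nn))
    have h32 : T3 G v2 := hT v2 ⟨W2, hW2⟩ hv2Ω.1.2
    obtain ⟨z0, c2, hdis⟩ := h.next hW2 h32 hx2W hcov (hZD hpZ)
    have cA : Conf G v2 W2 x2 p := ⟨hW2, hx2W, hcov, (hZD hpZ).1, (hZD hpZ).2⟩
    refine h.no_conf _ v2 W2 x2 z0 c2 h32 ?_ rfl
    intro q hq hqH
    apply hT q hqH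
    intro hpq
    exact hdis q hq (cmp_closed cA.base_mem (mem_cmp_self _ _) hpq (c2.piece_sub hq))
  -- Case II
  push Not at hI
  have hI' : ∀ u ∈ nn G p, ¬ Heavy G u → ∀ s, G.Adj p s → G.Adj u s := by
    intro u hu huH s hs
    by_contra hc
    exact huH (hI u hu ⟨s, hs, hc⟩)
  obtain ⟨s1, s2, hs12, hs1, hs2⟩ := h.two_nbrs p
  -- every vertex of `nn p` has all its neighbours in the neighbourhood of `p`
  have hbip : ∀ u ∈ nn G p, ∀ y, G.Adj u y → G.Adj p y := by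
    have key : ∀ l c, l ∈ nn G p → c ∈ nn G p → G.Adj l c → ¬ Heavy G c → False := by
      intro l c hl hc hlc hcH
      have hlN : ∀ y, G.Adj l y → y ∈ nn G p ∧ ¬ Heavy G y := by
        by_cases hlH : Heavy G l
        · intro y hly
          have hpy : ¬ G.Adj p y := fun hpy => h.tf l c y hlc (hI' c hc hcH y hpy) hly
          refine ⟨⟨?_, hpy⟩, fun hyH => h.heavy_indep hlH hyH hly⟩
          rintro rfl
          exact hl.2 hly.symm
        · exfalso
          exact h.tf l c s1 hlc (hI' c hc hcH s1 hs1) (hI' l hl hlH s1 hs1)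
      by_cases hlH : Heavy G l
      · obtain ⟨a, b, d, hab, had, hbd, ha, hb, hd⟩ := hT l hlH hl.2
        obtain ⟨Wl, hWl⟩ := hlH
        obtain ⟨l', hl'l, hl'W, hll'⟩ := hWl.other
        have htw : ∀ z, G.Adj l' z ↔ G.Adj l z := hWl.twin l' hl'W hll'
        have hA : ∀ y, G.Adj l y → ∀ s, G.Adj p s → G.Adj s y :=
          fun y hy s hs => (hI' y (hlN y hy).1 (hlN y hy).2 s hs).symm
        have hpl' : ¬ G.Adj p l' := by
          intro hc'
          exact hl.2 ((htw p).1 hc'.symm).symm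
        have hpl'' : p ≠ l' := by
          rintro rfl
          exact (hlN a ha).1.2 ((htw a).2 ha)
        have hsne : ∀ s, G.Adj p s → s ≠ a ∧ s ≠ b ∧ s ≠ d ∧ s ≠ l ∧ s ≠ l' := by
          intro s hs
          refine ⟨?_, ?_, ?_, ?_, ?_⟩
          · rintro rfl
            exact (hlN s ha).1.2 hs
          · rintro rfl
            exact (hlN s hb).1.2 hs
          · rintro rfl
            exact (hlN s hd).1.2 hs
          · rintro rfl
            exact hl.2 hs
          · rintro rfl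
            exact hpl' hs
        refine h.nk.false_of_twins (w := l) (w' := l') (a := a) (b := b) (c := d) hl'l.symm hab
          had hbd ha hb hd ((htw a).2 ha) ((htw b).2 hb) ((htw d).2 hd) (P := {s1})
          (Q := {s2, p}) ⟨s1, rfl⟩ ⟨s2, by simp⟩ (conn_singleton s1) (conn_pair hs2.symm)
          ?_ ?_ ?_ ⟨s1, rfl, hA a ha s1 hs1⟩ ⟨s1, rfl, hA b hb s1 hs1⟩ ⟨s1, rfl, hA d hd s1 hs1⟩
          ⟨s2, by simp, hA a ha s2 hs2⟩ ⟨s2, by simp, hA b hb s2 hs2⟩
          ⟨s2, by simp, hA d hd s2 hs2⟩ ⟨s1, rfl, p, by simp, hs1.symm⟩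
        · intro q hq hq'
          have hq1 : q = s1 := hq
          subst hq1
          rcases hq' with hq' | hq'
          · exact hs12 hq'
          · exact hs1.ne hq'.symm
        · intro q hq
          have hq1 : q = s1 := hq
          subst hq1
          exact hsne q hs1
        · intro q hq
          rcases hq with hq | hq
          · subst hq
            exact hsne q hs2
          · have hq1 : q = p := hq
            subst hq1
            exact ⟨(hlN a ha).1.1.symm, (hlN b hb).1.1.symm, (hlN d hd).1.1.symm, hl.1.symm, hpl''⟩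
      · exact h.tf l c s1 hlc (hI' c hc hcH s1 hs1) (hI' l hl hlH s1 hs1)
    intro u hu y huy
    by_contra hpy
    have hy : y ∈ nn G p := by
      refine ⟨?_, hpy⟩
      rintro rfl
      exact hu.2 huy.symm
    by_cases hyH : Heavy G y
    · have huH : ¬ Heavy G u := fun huH => h.heavy_indep huH hyH huy
      exact key y u hy hu huy.symm huH
    · exact key u y hu hy huy hyH
  -- two elements of `nn p`
  obtain ⟨c0, hc0⟩ := h.exists_far p
  obtain ⟨c1, hc1, hc10⟩ : ∃ c1 ∈ nn G p, c1 ≠ c0 := by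
    by_contra hc
    push Not at hc
    apply h.ns p
    have : nn G p = {c0} := Set.Subset.antisymm hc (by
      intro y hy
      have hy' : y = c0 := hy
      rw [hy']
      exact hc0)
    rw [this]
    exact conn_singleton c0
  by_cases hC : ∃ c ∈ nn G p, ∀ s, G.Adj p s → G.Adj c s
  · obtain ⟨c, hc, hcs⟩ := hC
    by_cases hall : ∀ u ∈ nn G p, ∀ s, G.Adj p s → G.Adj u s
    · -- complete bipartite
      have hW : HW G p {c0} := by
        refine ⟨⟨c0, rfl⟩, conn_singleton c0, ?_, ?_, ?_, ?_, ⟨c1, hc1.1, ?_, hc1.2⟩⟩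
        · intro hc'
          exact hc0.1 (Set.mem_singleton_iff.1 hc').symm
        · intro s hs hs'
          have : s = c0 := hs'
          subst this
          exact hc0.2 hs
        · intro s hs
          exact ⟨c0, rfl, (hall c0 hc0 s hs).symm⟩
        · intro y hy hpy z
          by_cases hyp : y = p
          · subst hyp
            exact Iff.rfl
          · exact ⟨hbip y ⟨hyp, hpy⟩ z, hall y ⟨hyp, hpy⟩ z⟩
        · exact hc10
      obtain ⟨z0, hz0, hz0'⟩ := h.exists_comp hW hs1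
      have hpz0 := hz0' z0 (mem_cmp_self _ _)
      by_cases hz0p : z0 = p
      · subst hz0p
        exact hz0.2 hs1.symm
      · exact hz0.2 (hall z0 ⟨hz0p, hpz0⟩ s1 hs1).symm
    · push Not at hall
      obtain ⟨l, hl, s, hs, hls⟩ := hall
      have hlH : Heavy G l := by
        by_contra hlH
        exact hls (hI' l hl hlH s hs)
      obtain ⟨a, b, d, hab, had, hbd, ha, hb, hd⟩ := hT l hlH hl.2
      obtain ⟨Wl, hWl⟩ := hlH
      obtain ⟨l', hl'l, hl'W, hll'⟩ := hWl.other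
      have htw : ∀ z, G.Adj l' z ↔ G.Adj l z := hWl.twin l' hl'W hll'
      have hpa := hbip l hl a ha
      have hpb := hbip l hl b hb
      have hpd := hbip l hl d hd
      have hl's : ¬ G.Adj l' s := fun hc' => hls ((htw s).1 hc')
      have hpl : ¬ G.Adj p l' := fun hc' => hl.2 ((htw p).1 hc'.symm).symm
      refine h.nk.false_of_twins (w := l) (w' := l') (a := a) (b := b) (c := d) hl'l.symm hab
        had hbd ha hb hd ((htw a).2 ha) ((htw b).2 hb) ((htw d).2 hd) (P := {c, s})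
        (Q := {p}) ⟨c, by simp⟩ ⟨p, rfl⟩ (conn_pair (hcs s hs)) (conn_singleton p)
        ?_ ?_ ?_ ⟨c, by simp, hcs a hpa⟩ ⟨c, by simp, hcs b hpb⟩ ⟨c, by simp, hcs d hpd⟩
        ⟨p, rfl, hpa⟩ ⟨p, rfl, hpb⟩ ⟨p, rfl, hpd⟩ ⟨s, by simp, p, rfl, hs.symm⟩
      · intro q hq hq'
        have hq1 : q = p := hq'
        rcases hq with hq | hq
        · exact hc.1 (hq.symm.trans hq1)
        · have hq2 : q = s := hq
          exact hs.ne (hq1.symm.trans hq2)
      · intro q hq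
        rcases hq with hq | hq
        · subst hq
          refine ⟨(hcs a hpa).ne, (hcs b hpb).ne, (hcs d hpd).ne, ?_, ?_⟩
          · rintro rfl
            exact hls (hcs s hs)
          · rintro rfl
            exact hl's (hcs s hs)
        · have hq2 : q = s := hq
          subst hq2
          refine ⟨?_, ?_, ?_, ?_, ?_⟩
          · rintro rfl
            exact hls ha
          · rintro rfl
            exact hls hb
          · rintro rfl
            exact hls hd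
          · rintro rfl
            exact hl.2 hs
          · rintro rfl
            exact hpl hs
      · intro q hq
        have hq1 : q = p := hq
        subst hq1
        refine ⟨hpa.ne, hpb.ne, hpd.ne, hl.1.symm, ?_⟩
        rintro rfl
        exact hl's hs
  · push Not at hC
    -- all of `nn p` is heavy and every heavy vertex has three neighbours
    have hH : ∀ u ∈ nn G p, Heavy G u := by
      intro u hu
      by_contra huH
      obtain ⟨s, hs, hus⟩ := hC u hu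
      exact hus (hI' u hu huH s hs)
    have hT3 : ∀ v, Heavy G v → T3 G v := by
      intro v hv
      by_contra hc
      have hpv := hp v hv hc
      obtain ⟨a, b, hab, ha, hb⟩ := h.two_nbrs v
      obtain ⟨q, hq, hqp⟩ : ∃ q, G.Adj v q ∧ q ≠ p := by
        by_cases hap : a = p
        · exact ⟨b, hb, fun hbp => hab (hap.trans hbp.symm)⟩
        · exact ⟨a, ha, hap⟩
      exact h.heavy_indep hv (hH q ⟨hqp, h.tf p v q hpv hq⟩) hq
    obtain ⟨W, hW⟩ := hH c0 hc0
    have hpW : p ∈ W := by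
      by_contra hpW
      obtain ⟨s, hs, hcs⟩ := hC c0 hc0
      exact hcs ((hW.twin p hpW (fun hc => hc0.2 hc.symm) s).1 hs)
    obtain ⟨z0, c⟩ := h.exists_conf hW hpW (hbip c0 hc0)
    exact h.no_conf _ c0 W p z0 c (hT3 c0 ⟨W, hW⟩) (fun q _ hq => hT3 q hq) rfl

end Run7.h325
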