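import Mathlib

set_option autoImplicit false

/-!
# Connectivity inside a vertex set

Elementary facts on reachability inside a set of vertices of a simple graph.
-/

namespace Run7.h325

variable {V : Type*} (G : SimpleGraph V)

/-- reachability by walks all of whose edges lie inside `S` -/
def RS (S : Set V) : V → V → Prop :=
  Relation.ReflTransGen (fun a b => G.Adj a b ∧ a ∈ S ∧ b ∈ S)

/-- `S` is connected (the empty set counts as connected) -/
def Conn (S : Set V) : Prop := ∀ x ∈ S, ∀ y ∈ S, RS G S x y

/-- the set of vertices reachable from `x` inside `S` -/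
def cmp (S : Set V) (x : V) : Set V := {y | RS G S x y}

/-- the vertices different from `x` and not adjacent to `x` -/
def nn (x : V) : Set V := {y | y ≠ x ∧ ¬ G.Adj x y}

variable {G}

theorem RS.refl' (S : Set V) (x : V) : RS G S x x := Relation.ReflTransGen.refl

theorem RS.symm {S : Set V} {x y : V} (h : RS G S x y) : RS G S y x := by
  unfold RS at *
  induction h with
  | refl => exact Relation.ReflTransGen.refl
  | tail _ hbc ih =>
    exact Relation.ReflTransGen.head ⟨hbc.1.symm, hbc.2.2, hbc.2.1⟩ ih

theorem RS.trans {S : Set V} {x y z : V} (h : RS G S x y) (h' : RS G S y z) : RS G S x z :=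
  Relation.ReflTransGen.trans h h'

theorem RS.mono {S T : Set V} (hST : S ⊆ T) {x y : V} (h : RS G S x y) : RS G T x y := by
  unfold RS at *
  induction h with
  | refl => exact Relation.ReflTransGen.refl
  | tail _ hbc ih =>
    exact Relation.ReflTransGen.tail ih ⟨hbc.1, hST hbc.2.1, hST hbc.2.2⟩

theorem RS.single {S : Set V} {x y : V} (h : G.Adj x y) (hx : x ∈ S) (hy : y ∈ S) :
    RS G S x y := Relation.ReflTransGen.single ⟨h, hx, hy⟩

theorem RS.mem {S : Set V} {x y : V} (h : RS G S x y) (hx : x ∈ S) : y ∈ S := by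
  unfold RS at h
  induction h with
  | refl => exact hx
  | tail _ hbc _ => exact hbc.2.2

theorem mem_cmp_self (S : Set V) (x : V) : x ∈ cmp G S x := RS.refl' S x

theorem cmp_subset {S : Set V} {x : V} (hx : x ∈ S) : cmp G S x ⊆ S := fun _ hy => RS.mem hy hx

theorem cmp_closed {S : Set V} {x y z : V} (hx : x ∈ S) (hy : y ∈ cmp G S x) (hyz : G.Adj y z)
    (hz : z ∈ S) : z ∈ cmp G S x :=
  RS.trans (G := G) hy (RS.single hyz (cmp_subset hx hy) hz)

theorem RS.in_cmp {S : Set V} {x y : V} (h : RS G S x y) : RS G (cmp G S x) x y := by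
  have h' := h
  unfold RS at h
  induction h with
  | refl => exact RS.refl' _ _
  | @tail b c hab hbc ih =>
    have hb : RS G S x b := hab
    refine RS.trans (ih hb) (RS.single hbc.1 hb h')

theorem cmp_conn (S : Set V) (x : V) : Conn G (cmp G S x) := by
  intro a ha b hb
  exact RS.trans (RS.symm (RS.in_cmp ha)) (RS.in_cmp hb)

theorem Conn.subset_cmp {A S : Set V} (hA : Conn G A) (hAS : A ⊆ S) {a : V} (ha : a ∈ A) :
    A ⊆ cmp G S a := fun b hb => RS.mono hAS (hA a ha b hb)

theorem cmp_eq {S : Set V} {x y : V} (h : y ∈ cmp G S x) : cmp G S y = cmp G S x := by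
  ext z
  constructor
  · intro hz
    exact RS.trans (G := G) h hz
  · intro hz
    exact RS.trans (RS.symm (G := G) h) hz

theorem conn_of_center {S : Set V} {c : V} (h : ∀ y ∈ S, RS G S y c) : Conn G S :=
  fun x hx y hy => RS.trans (h x hx) (RS.symm (h y hy))

/-- a nonempty proper part of a connected set sends an edge to the rest -/
theorem Conn.exists_edge {S C : Set V} (hS : Conn G S) {x y : V} (hx : x ∈ S) (hxC : x ∈ C)
    (hy : y ∈ S) (hyC : y ∉ C) : ∃ a ∈ C, ∃ b ∈ S, b ∉ C ∧ a ∈ S ∧ G.Adj a b := by
  have h := hS x hx y hy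
  unfold RS at h
  induction h with
  | refl => exact absurd hxC hyC
  | @tail b c hab hbc ih =>
    by_cases hb : b ∈ C
    · exact ⟨b, hb, c, hbc.2.2, hyC, hbc.2.1, hbc.1⟩
    · exact ih hbc.2.1 hb

/-- in a connected set with two elements every element has a neighbour in the set -/
theorem Conn.exists_nbr {S : Set V} (hS : Conn G S) {x y : V} (hx : x ∈ S) (hy : y ∈ S)
    (hxy : y ≠ x) : ∃ z ∈ S, G.Adj x z := by
  obtain ⟨a, ha, b, hb, _, _, hab⟩ := hS.exists_edge (C := {x}) hx rfl hy (by simpa using hxy)
  have : a = x := ha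
  subst this
  exact ⟨b, hb, hab⟩

theorem conn_induce_iff (S : Set V) : (G.induce S).Connected ↔ S.Nonempty ∧ Conn G S := by
  constructor
  · intro h
    obtain ⟨x⟩ := h.nonempty
    refine ⟨⟨x.1, x.2⟩, ?_⟩
    intro a ha b hb
    obtain ⟨p⟩ := h.preconnected ⟨a, ha⟩ ⟨b, hb⟩
    have : ∀ (u v : S) (p : (G.induce S).Walk u v), RS G S u.1 v.1 := by
      intro u v p
      induction p with
      | nil => exact RS.refl' _ _
      | @cons u v w huv _ ih => exact RS.trans (RS.single huv u.2 v.2) ih
    exact this _ _ p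
  · rintro ⟨⟨x, hx⟩, h⟩
    have : Nonempty S := ⟨⟨x, hx⟩⟩
    refine ⟨?_⟩
    rintro ⟨a, ha⟩ ⟨b, hb⟩
    have key : ∀ c, RS G S a c → ∀ hc : c ∈ S, (G.induce S).Reachable ⟨a, ha⟩ ⟨c, hc⟩ := by
      intro c hac
      unfold RS at hac
      induction hac with
      | refl => intro _; exact SimpleGraph.Reachable.refl _
      | @tail c d hac hcd ih =>
        intro hd
        have h1 := ih hcd.2.1
        have h2 : (G.induce S).Adj ⟨c, hcd.2.1⟩ ⟨d, hd⟩ := hcd.1
        exact h1.trans h2.reachable
    exact key b (h a ha b hb) hb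

theorem conn_singleton (x : V) : Conn G {x} := by
  intro a ha b hb
  have h1 : a = x := ha
  have h2 : b = x := hb
  subst h1; subst h2
  exact RS.refl' _ _

theorem conn_pair {x y : V} (h : G.Adj x y) : Conn G {x, y} := by
  refine conn_of_center (c := x) ?_
  intro z hz
  rcases hz with hz | hz
  · subst hz; exact RS.refl' _ _
  · have hz' : z = y := hz
    subst hz'
    exact RS.single h.symm (by simp) (by simp)

/-- adding to a connected set a vertex with a neighbour in it keeps it connected -/
theorem conn_insert {S : Set V} (hS : Conn G S) {x s : V} (hs : s ∈ S) (h : G.Adj x s) :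
    Conn G (insert x S) := by
  refine conn_of_center (c := s) ?_
  intro z hz
  rcases hz with hz | hz
  · subst hz
    exact RS.single h (by simp) (Set.mem_insert_of_mem _ hs)
  · exact RS.mono (Set.subset_insert _ _) (hS z hz s hs)

end Run7.h325
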