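import Pool.Agent.Run7.h325.Heavy

set_option autoImplicit false

/-!
# The hub lemma and the descent
-/

namespace Run7.h325

variable {V : Type*} {G : SimpleGraph V}

/-- `v` has three distinct neighbours -/
def T3 (G : SimpleGraph V) (v : V) : Prop :=
  ∃ a b c, a ≠ b ∧ a ≠ c ∧ b ≠ c ∧ G.Adj v a ∧ G.Adj v b ∧ G.Adj v c

/-- the hypotheses of the main argument: no contractible star, no contractible edge cut of the form
`δ({x, y})`, no `K_5` minor -/
structure Bad2 (G : SimpleGraph V) : Prop extends Bad G where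
  ne : ∀ x y, G.Adj x y → Conn G {z | z ≠ x ∧ z ≠ y} → Conn G (insert y (nn G x)) →
    Conn G (insert x (nn G y)) → False
  nk : NoK5 G

/-- for a heavy vertex `v` and a neighbour `s` the sets `nn v ∪ {s}` and `V \ {v, s}` are
connected -/
theorem HW.conn_insert_nn {v : V} {W : Set V} (hv : HW G v W) {s : V}
    (hs : G.Adj v s) : Conn G (insert s (nn G v)) := by
  obtain ⟨w0, hw0, hsw0⟩ := hv.att s hs
  have hWs : W ⊆ insert s (nn G v) := by
    intro w hw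
    refine Set.mem_insert_of_mem _ ⟨?_, fun hc => hv.nbr_not_mem w hc hw⟩
    rintro rfl
    exact hv.not_mem hw
  refine conn_of_center (c := s) ?_
  intro y hy
  rcases hy with rfl | hy
  · exact RS.refl' _ _
  · by_cases hyW : y ∈ W
    · exact RS.trans (RS.mono hWs (hv.conn y hyW w0 hw0))
        (RS.single hsw0.symm (hWs hw0) (Set.mem_insert _ _))
    · have hys : G.Adj y s := (hv.twin y hyW hy.2 s).2 hs
      exact RS.single hys (Set.mem_insert_of_mem _ hy) (Set.mem_insert _ _)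

theorem HW.conn_compl (h : Bad G) {v : V} {W : Set V} (hv : HW G v W) {s : V}
    (hs : G.Adj v s) : Conn G {z | z ≠ v ∧ z ≠ s} := by
  have hWs : W ⊆ {z | z ≠ v ∧ z ≠ s} := by
    intro w hw
    constructor
    · rintro rfl
      exact hv.not_mem hw
    · rintro rfl
      exact hv.nbr_not_mem _ hs hw
  obtain ⟨w0, hw0⟩ := hv.nonempty
  obtain ⟨s', hs', hss'⟩ : ∃ s', G.Adj v s' ∧ s' ≠ s := by
    obtain ⟨a, b, hab, ha, hb⟩ := h.two_nbrs v
    by_cases hc : a = s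
    · exact ⟨b, hb, fun hbs => hab (hc.trans hbs.symm)⟩
    · exact ⟨a, ha, hc⟩
  have key : ∀ y, G.Adj v y → y ≠ s → RS G {z | z ≠ v ∧ z ≠ s} y w0 := by
    intro y hy hys
    obtain ⟨w, hw, hyw⟩ := hv.att y hy
    exact RS.trans (RS.single hyw ⟨hy.ne.symm, hys⟩ (hWs hw)) (RS.mono hWs (hv.conn w hw w0 hw0))
  refine conn_of_center (c := w0) ?_
  intro y hy
  by_cases hyW : y ∈ W
  · exact RS.mono hWs (hv.conn y hyW w0 hw0)
  · by_cases hvy : G.Adj v y
    · exact key y hvy hy.2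
    · have hys' : G.Adj y s' := (hv.twin y hyW hvy s').2 hs'
      exact RS.trans (RS.single hys' hy ⟨hs'.ne.symm, hss'⟩) (key s' hs' hss')

/-- two heavy vertices are not adjacent -/
theorem Bad2.heavy_indep (h : Bad2 G) {v w : V} (hv : Heavy G v) (hw : Heavy G w) :
    ¬ G.Adj v w := by
  intro hvw
  obtain ⟨W, hW⟩ := hv
  obtain ⟨W', hW'⟩ := hw
  exact h.ne v w hvw (hW.conn_compl h.toBad hvw) (hW.conn_insert_nn hvw)
    (hW'.conn_insert_nn hvw.symm)

/-- For a heavy vertex `v` and a neighbour `s` of it there is a component of `nn s` which avoids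
the neighbourhood of `v`. -/
theorem Bad2.exists_comp (h : Bad2 G) {v : V} {W : Set V} (hv : HW G v W) {s : V}
    (hs : G.Adj v s) : ∃ z0 ∈ nn G s, ∀ y ∈ cmp G (nn G s) z0, ¬ G.Adj v y := by
  by_contra hc
  push Not at hc
  refine h.ne v s hs (hv.conn_compl h.toBad hs) (hv.conn_insert_nn hs) ?_
  refine conn_of_center (c := v) ?_
  intro y hy
  rcases hy with rfl | hy
  · exact RS.refl' _ _
  · obtain ⟨q, hq, hvq⟩ := hc y hy
    refine RS.trans (RS.mono (Set.subset_insert _ _) (show RS G (nn G s) y q from hq)) ?_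
    exact RS.single hvq.symm (Set.mem_insert_of_mem _ (cmp_subset hy hq)) (Set.mem_insert _ _)

/-- **Hub lemma.** -/
theorem Bad2.hub [Finite V] (h : Bad2 G) (r : V) (Ω : Set V)
    (h1 : ∀ u ∈ Ω, r ∈ nn G u)
    (h2 : ∀ u ∈ Ω, ∀ y, y ∉ cmp G (nn G u) r → (∀ z ∈ cmp G (nn G u) r, ¬ G.Adj z y) → y ∈ Ω)
    (h3 : ∀ u ∈ Ω, ∃ z ∈ cmp G (nn G u) r, z ≠ r)
    (h5 : ∀ u ∈ Ω, Heavy G u → T3 G u)
    (h4 : ∃ u ∈ Ω, ¬ Heavy G u) :
    ∃ x ∈ Ω, ¬ Heavy G x ∧ ∃ v, Heavy G v ∧ v ∈ nn G x ∧ v ∉ cmp G (nn G x) r ∧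
      ∀ s, G.Adj v s → G.Adj x s := by
  classical
  obtain ⟨u0, hu0, hu0'⟩ := h4
  obtain ⟨x, hx, hmax⟩ := Set.exists_max_image {u | u ∈ Ω ∧ ¬ Heavy G u}
    (fun u => (cmp G (nn G u) r).ncard) (Set.toFinite _) ⟨u0, hu0, hu0'⟩
  obtain ⟨hxΩ, hxH⟩ := hx
  have hrx := h1 x hxΩ
  set Z := cmp G (nn G x) r with hZ
  have hrZ : r ∈ Z := mem_cmp_self _ _
  have hZc : Conn G Z := cmp_conn _ _
  have hZs : Z ⊆ nn G x := cmp_subset hrx
  have hxZ : x ∉ Z := fun hc => (hZs hc).1 rfl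
  have hxZ' : ∀ z ∈ Z, ¬ G.Adj z x := fun z hz hc => (hZs hz).2 hc.symm
  obtain ⟨z1, hz1, hz1r⟩ := h3 x hxΩ
  -- attachments of `Z` are neighbours of `x`
  have hii : ∀ z ∈ Z, ∀ t, t ∉ Z → G.Adj z t → G.Adj x t := by
    intro z hz t ht hzt
    by_contra hc
    apply ht
    refine cmp_closed hrx hz hzt ⟨?_, hc⟩
    rintro rfl
    exact (hZs hz).2 hzt.symm
  -- and of every nonheavy vertex outside `Z` and its neighbourhood
  have hiii : ∀ y, y ∉ Z → (∀ z ∈ Z, ¬ G.Adj z y) → ¬ Heavy G y → ∀ z ∈ Z, ∀ t, t ∉ Z →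
      G.Adj z t → G.Adj y t := by
    intro y hy hyZ hyH z hz t ht hzt
    have hyΩ : y ∈ Ω := h2 x hxΩ y hy hyZ
    have hZy : Z ⊆ nn G y := by
      intro q hq
      refine ⟨?_, fun hc => hyZ q hq hc.symm⟩
      rintro rfl
      exact hy hq
    have hry : r ∈ nn G y := hZy hrZ
    have hsub : Z ⊆ cmp G (nn G y) r := hZc.subset_cmp hZy hrZ
    have hle := hmax y ⟨hyΩ, hyH⟩
    have heq : Z = cmp G (nn G y) r :=
      Set.eq_of_subset_of_ncard_le hsub hle (Set.toFinite _)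
    by_contra hc
    apply ht
    rw [heq]
    refine cmp_closed hry (heq ▸ hz) hzt ⟨?_, hc⟩
    rintro rfl
    exact hyZ z hz hzt
  -- two attachments
  obtain ⟨z2, hz2, t1, _, ht1, _, hzt1⟩ := h.conn.exists_edge (C := Z) (x := r) (y := x)
    (Set.mem_univ _) hrZ (Set.mem_univ _) hxZ
  have hxt1 : G.Adj x t1 := hii z2 hz2 t1 ht1 hzt1
  obtain ⟨z3, hz3, t2, ht2', ht2, _, hzt2⟩ := (h.c2 t1).exists_edge (C := Z) (x := r) (y := x)
    (show r ≠ t1 from fun hc => ht1 (hc ▸ hrZ)) hrZ (show x ≠ t1 from hxt1.ne) hxZ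
  have ht12 : t2 ≠ t1 := ht2'
  have hxt2 : G.Adj x t2 := hii z3 hz3 t2 ht2 hzt2
  by_contra hcon
  push Not at hcon
  -- a vertex of `nn x` outside `Z` has no neighbour in `Z`
  have hfar : ∀ y ∈ nn G x, y ∉ Z → ∀ z ∈ Z, ¬ G.Adj z y := by
    intro y hy hyZ z hz hzy
    exact hyZ (cmp_closed hrx hz hzy hy)
  obtain ⟨y0, hy0, hy0Z⟩ : ∃ y0 ∈ nn G x, y0 ∉ Z := by
    by_contra hc
    push Not at hc
    apply h.ns x
    have : nn G x = Z := Set.Subset.antisymm hc hZs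
    rw [this]
    exact hZc
  -- Step A: a nonheavy vertex in `nn x \ Z`
  obtain ⟨u, hu, huZ, huH⟩ : ∃ u ∈ nn G x, u ∉ Z ∧ ¬ Heavy G u := by
    by_contra hc
    push Not at hc
    have hy0H := hc y0 hy0 hy0Z
    obtain ⟨s, hs, hs'⟩ := hcon x hxΩ hxH y0 hy0H hy0 hy0Z
    have hsZ : s ∉ Z := fun hsZ => hfar y0 hy0 hy0Z s hsZ hs.symm
    have hsx : s ≠ x := by
      rintro rfl
      exact hy0.2 hs.symm
    exact h.heavy_indep hy0H (hc s ⟨hsx, hs'⟩ hsZ) hs
  have huZ' : ∀ z ∈ Z, ¬ G.Adj z u := hfar u hu huZ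
  by_cases hcase : ∃ w, w ∉ Z ∧ (∀ z ∈ Z, ¬ G.Adj z w) ∧ Heavy G w ∧
      ∃ y, y ∉ Z ∧ (∀ z ∈ Z, ¬ G.Adj z y) ∧ ¬ Heavy G y ∧ G.Adj w y
  · -- Case 1a
    obtain ⟨w, hwZ, hwZ', hwH, y, hyZ, hyZ', hyH, hwy⟩ := hcase
    have hq : ∀ q, G.Adj w q → q ∉ Z ∧ (∀ z ∈ Z, ¬ G.Adj z q) ∧ ¬ Heavy G q := by
      intro q hwq
      have hqZ : q ∉ Z := fun hc => hwZ' q hc hwq.symm
      refine ⟨hqZ, ?_, fun hqH => h.heavy_indep hwH hqH hwq⟩
      intro z hz hzq
      have hyq := hiii y hyZ hyZ' hyH z hz q hqZ hzq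
      exact h.tf w y q hwy hyq hwq
    obtain ⟨a, b, c, hab, hac, hbc, ha, hb, hc⟩ := h5 w (h2 x hxΩ w hwZ hwZ') hwH
    obtain ⟨Ww, hWw⟩ := hwH
    obtain ⟨w', hw'w, hw'W, hww'⟩ := hWw.other
    have htw : ∀ z, G.Adj w' z ↔ G.Adj w z := hWw.twin w' hw'W hww'
    have ha' := (htw a).2 ha
    have hb' := (htw b).2 hb
    have hc' := (htw c).2 hc
    obtain ⟨haZ, haZ', haH⟩ := hq a ha
    obtain ⟨hbZ, hbZ', hbH⟩ := hq b hb
    obtain ⟨hcZ, hcZ', hcH⟩ := hq c hc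
    have hw'Z : w' ∉ Z := fun hc => haZ' w' hc ha'
    have hw'Z' : ∀ z ∈ Z, ¬ G.Adj z w' := fun z hz hzw' => hwZ' z hz ((htw z).1 hzw'.symm).symm
    have hne1 : ∀ p, (∀ z ∈ Z, ¬ G.Adj z p) → t1 ≠ p := by
      rintro p hp rfl
      exact hp z2 hz2 hzt1
    have hne2 : ∀ p, (∀ z ∈ Z, ¬ G.Adj z p) → t2 ≠ p := by
      rintro p hp rfl
      exact hp z3 hz3 hzt2
    have hneZ : ∀ z ∈ Z, ∀ p, p ∉ Z → z ≠ p := by
      rintro z hz p hp rfl
      exact hp hz
    refine h.nk.false_of_twins (w := w) (w' := w') (a := a) (b := b) (c := c) hw'w.symm hab hac hbc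
      ha hb hc ha' hb' hc' (P := {t1}) (Q := insert t2 Z) ⟨t1, rfl⟩ ⟨t2, Set.mem_insert _ _⟩
      (conn_singleton _) (conn_insert hZc hz3 hzt2.symm) ?_ ?_ ?_ ?_ ?_ ?_ ?_ ?_ ?_ ?_
    · intro p hp hpQ
      have hp' : p = t1 := hp
      subst hp'
      rcases hpQ with hpQ | hpQ
      · exact ht12 hpQ.symm
      · exact ht1 hpQ
    · intro p hp
      have hp' : p = t1 := hp
      subst hp'
      exact ⟨hne1 a haZ', hne1 b hbZ', hne1 c hcZ', hne1 w hwZ', hne1 w' hw'Z'⟩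
    · intro p hp
      rcases hp with hp | hp
      · subst hp
        exact ⟨hne2 a haZ', hne2 b hbZ', hne2 c hcZ', hne2 w hwZ', hne2 w' hw'Z'⟩
      · exact ⟨hneZ p hp a haZ, hneZ p hp b hbZ, hneZ p hp c hcZ, hneZ p hp w hwZ,
          hneZ p hp w' hw'Z⟩
    · exact ⟨t1, rfl, (hiii a haZ haZ' haH z2 hz2 t1 ht1 hzt1).symm⟩
    · exact ⟨t1, rfl, (hiii b hbZ hbZ' hbH z2 hz2 t1 ht1 hzt1).symm⟩
    · exact ⟨t1, rfl, (hiii c hcZ hcZ' hcH z2 hz2 t1 ht1 hzt1).symm⟩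
    · exact ⟨t2, Set.mem_insert _ _, (hiii a haZ haZ' haH z3 hz3 t2 ht2 hzt2).symm⟩
    · exact ⟨t2, Set.mem_insert _ _, (hiii b hbZ hbZ' hbH z3 hz3 t2 ht2 hzt2).symm⟩
    · exact ⟨t2, Set.mem_insert _ _, (hiii c hcZ hcZ' hcH z3 hz3 t2 ht2 hzt2).symm⟩
    · exact ⟨t1, rfl, z2, Set.mem_insert_of_mem _ hz2, hzt1.symm⟩
  · -- Case 1b
    push Not at hcase
    -- neighbourhoods of nonheavy vertices of `R0` are exactly the attachments
    have hN : ∀ y, y ∉ Z → (∀ z ∈ Z, ¬ G.Adj z y) → ¬ Heavy G y → ∀ q, G.Adj y q →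
        q ∉ Z ∧ ∃ z ∈ Z, G.Adj z q := by
      intro y hyZ hyZ' hyH q hyq
      have hqZ : q ∉ Z := fun hc => hyZ' q hc hyq.symm
      refine ⟨hqZ, ?_⟩
      by_contra hc
      push Not at hc
      by_cases hqH : Heavy G q
      · exact hcase q hqZ hc hqH y hyZ hyZ' hyH hyq.symm
      · have e1 := hiii y hyZ hyZ' hyH z2 hz2 t1 ht1 hzt1
        have e2 := hiii q hqZ hc hqH z2 hz2 t1 ht1 hzt1
        exact h.tf y q t1 hyq e2 e1
    by_cases hsub : ∀ w, w ∉ Z → (∀ z ∈ Z, ¬ G.Adj z w) → Heavy G w → ∀ q, G.Adj x q → G.Adj w q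
    · -- `x` is heavy
      apply hxH
      refine ⟨Z, ⟨r, hrZ⟩, hZc, hxZ, ?_, ?_, ?_, ⟨u, hu.1, huZ, hu.2⟩⟩
      · intro s hs hsZ
        exact (hZs hsZ).2 hs
      · intro s hs
        obtain ⟨_, z, hz, hzs⟩ := hN x hxZ hxZ' hxH s hs
        exact ⟨z, hz, hzs.symm⟩
      · intro y hy hxy q
        have hyZ' : ∀ z ∈ Z, ¬ G.Adj z y := fun z hz hc => hxy (hii z hz y hy hc)
        constructor
        · intro hyq
          -- `q` is an attachment
          have hqZ : q ∉ Z := fun hc => hyZ' q hc hyq.symm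
          by_cases hqa : ∃ z ∈ Z, G.Adj z q
          · obtain ⟨z, hz, hzq⟩ := hqa
            exact hii z hz q hqZ hzq
          · push Not at hqa
            exfalso
            by_cases hyH : Heavy G y
            · by_cases hqH : Heavy G q
              · exact h.heavy_indep hyH hqH hyq
              · exact hcase y hy hyZ' hyH q hqZ hqa hqH hyq
            · obtain ⟨_, z, hz, hzq⟩ := hN y hy hyZ' hyH q hyq
              exact hqa z hz hzq
        · intro hxq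
          obtain ⟨hqZ, z, hz, hzq⟩ := hN x hxZ hxZ' hxH q hxq
          by_cases hyH : Heavy G y
          · exact hsub y hy hyZ' hyH q hxq
          · exact hiii y hy hyZ' hyH z hz q hqZ hzq
    · -- the second `K_5`
      push Not at hsub
      obtain ⟨w, hwZ, hwZ', hwH, d, hxd, hwd⟩ := hsub
      obtain ⟨hdZ, zd, hzd, hzdd⟩ := hN x hxZ hxZ' hxH d hxd
      have hq : ∀ q, G.Adj w q → q ∉ Z ∧ ∃ z ∈ Z, G.Adj z q := by
        intro q hwq
        have hqZ : q ∉ Z := fun hc => hwZ' q hc hwq.symm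
        refine ⟨hqZ, ?_⟩
        by_contra hc
        push Not at hc
        by_cases hqH : Heavy G q
        · exact h.heavy_indep hwH hqH hwq
        · exact hcase w hwZ hwZ' hwH q hqZ hc hqH hwq
      have hwx : w ≠ x := by
        rintro rfl
        exact hxH hwH
      obtain ⟨a, b, c, hab, hac, hbc, ha, hb, hc⟩ := h5 w (h2 x hxΩ w hwZ hwZ') hwH
      obtain ⟨Ww, hWw⟩ := hwH
      obtain ⟨w', hw'w, hw'W, hww'⟩ := hWw.other
      have htw : ∀ z, G.Adj w' z ↔ G.Adj w z := hWw.twin w' hw'W hww'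
      have ha' := (htw a).2 ha
      have hb' := (htw b).2 hb
      have hc' := (htw c).2 hc
      obtain ⟨haZ, za, hza, hzaa⟩ := hq a ha
      obtain ⟨hbZ, zb, hzb, hzbb⟩ := hq b hb
      obtain ⟨hcZ, zc, hzc, hzcc⟩ := hq c hc
      have hxa := hii za hza a haZ hzaa
      have hxb := hii zb hzb b hbZ hzbb
      have hxc := hii zc hzc c hcZ hzcc
      have hw'x : w' ≠ x := by
        rintro rfl
        exact hwd ((htw d).1 hxd)
      have hw'Z : w' ∉ Z := by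
        intro hc
        obtain ⟨z'', hz'', hzz⟩ : ∃ z ∈ Z, G.Adj w' z := by
          by_cases hwr : w' = r
          · exact hZc.exists_nbr hc hz1 (hwr ▸ hz1r)
          · exact hZc.exists_nbr hc hrZ (fun hh => hwr hh.symm)
        exact hwZ' z'' hz'' ((htw z'').1 hzz).symm
      have hneZ : ∀ z ∈ Z, ∀ p, p ∉ Z → z ≠ p := by
        rintro z hz p hp rfl
        exact hp hz
      refine h.nk.false_of_twins (w := w) (w' := w') (a := a) (b := b) (c := c) hw'w.symm hab hac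
        hbc ha hb hc ha' hb' hc' (P := {x, d}) (Q := Z) ⟨x, by simp⟩ ⟨r, hrZ⟩
        (conn_pair hxd) hZc ?_ ?_ ?_ ?_ ?_ ?_ ?_ ?_ ?_ ?_
      · intro p hp
        rcases hp with rfl | hp
        · exact hxZ
        · have hp' : p = d := hp
          subst hp'
          exact hdZ
      · intro p hp
        rcases hp with rfl | hp
        · exact ⟨hxa.ne, hxb.ne, hxc.ne, hwx.symm, hw'x.symm⟩
        · have hp' : p = d := hp
          subst hp'
          refine ⟨?_, ?_, ?_, ?_, ?_⟩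
          · rintro rfl
            exact hwd ha
          · rintro rfl
            exact hwd hb
          · rintro rfl
            exact hwd hc
          · rintro rfl
            exact hwZ' zd hzd hzdd
          · rintro rfl
            exact hwZ' zd hzd ((htw zd).1 hzdd.symm).symm
      · intro p hp
        exact ⟨hneZ p hp a haZ, hneZ p hp b hbZ, hneZ p hp c hcZ, hneZ p hp w hwZ,
          hneZ p hp w' hw'Z⟩
      · exact ⟨x, by simp, hxa⟩
      · exact ⟨x, by simp, hxb⟩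
      · exact ⟨x, by simp, hxc⟩
      · exact ⟨za, hza, hzaa⟩
      · exact ⟨zb, hzb, hzbb⟩
      · exact ⟨zc, hzc, hzcc⟩
      · exact ⟨d, by simp, zd, hzd, hzdd.symm⟩

end Run7.h325
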