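import Pool.Agent.Run7.h325.Defs
import Pool.Agent.Run7.h325.Hub

set_option autoImplicit false

/-!
# From connectivity to contractible bonds
-/

namespace Run7.h325

variable {V : Type} {G : SimpleGraph V}

theorem cut_adj {X : Set V} {a b : V} :
    (cut G X).Adj a b ↔ G.Adj a b ∧ ((a ∈ X ∧ b ∉ X) ∨ (a ∉ X ∧ b ∈ X)) := Iff.rfl

theorem reachable_invariant {H : SimpleGraph V} {P : V → Prop}
    (hP : ∀ a b, H.Adj a b → (P a ↔ P b)) {a b : V} (h : H.Reachable a b) : P a ↔ P b := by
  obtain ⟨p⟩ := h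
  induction p with
  | nil => exact Iff.rfl
  | @cons u v w huv _ ih => exact (hP u v huv).trans ih

theorem reachable_of_RS {K : SimpleGraph V} {S : Set V} (hK : ∀ a ∈ S, ∀ b ∈ S, ¬ K.Adj a b)
    {a b : V} (h : RS G S a b) : (G \ K).Reachable a b := by
  unfold RS at h
  induction h with
  | refl => exact SimpleGraph.Reachable.refl _
  | @tail b c _ hbc ih =>
    refine ih.trans (SimpleGraph.Adj.reachable ?_)
    rw [SimpleGraph.sdiff_adj]
    exact ⟨hbc.1, hK b hbc.2.1 c hbc.2.2⟩

/-- the edges leaving `X` form a bond when `X` and its complement are connected -/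
theorem cut_bond {X : Set V} (hX : Conn G X) (hXc : Conn G Xᶜ) {x y : V} (hx : x ∈ X)
    (hy : y ∉ X) (hG : Conn G Set.univ) :
    cut G X ≤ G ∧ cut G X ≠ ⊥ ∧ ¬ (G \ cut G X).Connected ∧
    (∀ K : SimpleGraph V, K ≤ cut G X → K ≠ ⊥ → ¬ (G \ K).Connected → K = cut G X) := by
  refine ⟨fun a b h => h.1, ?_, ?_, ?_⟩
  · intro hbot
    obtain ⟨a, ha, b, _, hb, _, hab⟩ := hG.exists_edge (C := X) (Set.mem_univ _) hx
      (Set.mem_univ _) hy
    have : (cut G X).Adj a b := ⟨hab, Or.inl ⟨ha, hb⟩⟩
    rw [hbot] at this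
    exact this
  · intro hc
    have hr := hc.preconnected x y
    have := (reachable_invariant (P := fun a => a ∈ X) (by
      intro a b hab
      rw [SimpleGraph.sdiff_adj] at hab
      by_contra hne
      apply hab.2
      refine ⟨hab.1, ?_⟩
      by_cases ha : a ∈ X
      · by_cases hb : b ∈ X
        · exact absurd (iff_of_true ha hb) hne
        · exact Or.inl ⟨ha, hb⟩
      · by_cases hb : b ∈ X
        · exact Or.inr ⟨ha, hb⟩
        · exact absurd (iff_of_false ha hb) hne) hr).1 hx
    exact hy this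
  · intro K hK _ hKc
    by_contra hne
    apply hKc
    -- an edge of the cut which is not in `K`
    obtain ⟨a, b, hab, haX, hbX, habK⟩ : ∃ a b, G.Adj a b ∧ a ∈ X ∧ b ∉ X ∧ ¬ K.Adj a b := by
      by_contra hc
      push Not at hc
      apply hne
      apply le_antisymm hK
      intro a b hab
      rcases hab.2 with h | h
      · exact hc a b hab.1 h.1 h.2
      · exact (hc b a hab.1.symm h.2 h.1).symm
    have hKX : ∀ u ∈ X, ∀ w ∈ X, ¬ K.Adj u w := by
      intro u hu w hw h
      rcases (hK h).2 with h' | h'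
      · exact h'.2 hw
      · exact h'.1 hu
    have hKXc : ∀ u ∈ Xᶜ, ∀ w ∈ Xᶜ, ¬ K.Adj u w := by
      intro u hu w hw h
      rcases (hK h).2 with h' | h'
      · exact hu h'.1
      · exact hw h'.2
    have hab' : (G \ K).Reachable a b := by
      apply SimpleGraph.Adj.reachable
      rw [SimpleGraph.sdiff_adj]
      exact ⟨hab, habK⟩
    have key : ∀ u, (G \ K).Reachable u a := by
      intro u
      by_cases hu : u ∈ X
      · exact reachable_of_RS hKX (hX u hu a haX)
      · exact (reachable_of_RS hKXc (hXc u hu b hbX)).trans hab'.symm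
    have : Nonempty V := ⟨a⟩
    exact ⟨fun u w => (key u).trans (key w).symm⟩

/-- two distinct neighbours, from 2-connectivity and three vertices -/
theorem Base.two_nbrs (h : Base G) {x : V} (h3 : ∃ y z : V, y ≠ x ∧ z ≠ x ∧ y ≠ z) :
    ∃ a b, a ≠ b ∧ G.Adj x a ∧ G.Adj x b := by
  obtain ⟨y, z, hy, hz, hyz⟩ := h3
  obtain ⟨a, ha, b, _, hb, _, hab⟩ := h.conn.exists_edge (C := {x}) (x := x) (y := y)
    (Set.mem_univ _) rfl (Set.mem_univ _) hy
  have hax : a = x := ha
  subst hax
  have hba : b ≠ a := hb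
  obtain ⟨t, ht, htb⟩ : ∃ t, t ≠ a ∧ t ≠ b := by
    by_cases hyb : y = b
    · exact ⟨z, hz, fun hzb => hyz (hyb.trans hzb.symm)⟩
    · exact ⟨y, hy, hyb⟩
  obtain ⟨c, hc, d, hd, hdc, _, hcd⟩ := (h.c2 b).exists_edge (C := {a}) (x := a) (y := t)
    hba.symm rfl htb ht
  have hca : c = a := hc
  subst hca
  exact ⟨b, d, fun hbd => hd hbd.symm, hab, hcd⟩

theorem Base.exists_far (h : Base G) (h3 : ∀ x : V, ∃ y z : V, y ≠ x ∧ z ≠ x ∧ y ≠ z) (x : V) :
    ∃ y, y ∈ nn G x := by
  obtain ⟨a, _, _, ha, _⟩ := h.two_nbrs (h3 x)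
  obtain ⟨c, d, hcd, hc, hd⟩ := h.two_nbrs (h3 a)
  by_cases hcx : c = x
  · subst hcx
    exact ⟨d, hcd.symm, h.tf c a d ha hd⟩
  · exact ⟨c, hcx, h.tf x a c ha hc⟩

/-- a vertex whose closed neighbourhood has a connected complement gives a contractible bond -/
theorem star_bond (h : Base G) (h3 : ∀ x : V, ∃ y z : V, y ≠ x ∧ z ≠ x ∧ y ≠ z) {x : V}
    (hx : Conn G (nn G x)) : ContractibleBond G (cut G {x}) := by
  obtain ⟨f, hf⟩ := h.exists_far h3 x
  have hXc : Conn G ({x}ᶜ : Set V) := h.c2 x
  obtain ⟨b1, b2, b3, b4⟩ := cut_bond (conn_singleton x) hXc (x := x) (y := f) rfl hf.1 h.conn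
  -- classes
  have hiso : ∀ v ∈ nn G x, ∀ w, (cut G {x}).Reachable v w → w = v := by
    intro v hv w hvw
    refine ((reachable_invariant (P := fun a => a = v) ?_ hvw).1 rfl)
    intro a b hab
    obtain ⟨hab1, hab2⟩ := hab
    rcases hab2 with ⟨ha, hb⟩ | ⟨ha, hb⟩
    · have ha' : a = x := ha
      subst ha'
      constructor
      · rintro rfl
        exact absurd rfl hv.1
      · rintro rfl
        exact absurd hab1 hv.2
    · have hb' : b = x := hb
      subst hb'
      constructor
      · rintro rfl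
        exact absurd hab1.symm hv.2
      · rintro rfl
        exact absurd rfl hv.1
  have hcl : ∀ v, v ∉ nn G x → ∀ w, (cut G {x}).Reachable v w ↔ w ∉ nn G x := by
    have hr : ∀ v, v ∉ nn G x → (cut G {x}).Reachable x v := by
      intro v hv
      by_cases hvx : v = x
      · subst hvx
        exact SimpleGraph.Reachable.refl _
      · have hadj : G.Adj x v := by
          by_contra hc
          exact hv ⟨hvx, hc⟩
        exact SimpleGraph.Adj.reachable ⟨hadj, Or.inl ⟨rfl, hvx⟩⟩
    intro v hv w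
    constructor
    · intro hvw hw
      have := hiso w hw v hvw.symm
      exact hv (this ▸ hw)
    · intro hw
      exact (hr v hv).symm.trans (hr w hw)
  refine ⟨b1, b2, b3, b4, ⟨f, x, fun hc => hf.1 (hiso f hf x hc).symm⟩, ?_, ?_⟩
  · obtain ⟨a, b, hab, ha, hb⟩ := h.two_nbrs (h3 f)
    refine ⟨f, a, f, b, ha, hb, fun hc => ha.ne (hiso f hf a hc).symm,
      fun hc => hb.ne (hiso f hf b hc).symm, fun hc => hab hc.2, fun hc => hb.ne hc.1⟩
  · intro v
    rw [conn_induce_iff]
    by_cases hv : v ∈ nn G x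
    · have heq : {w : V | ¬ (cut G {x}).Reachable v w} = {w | w ≠ v} := by
        ext w
        constructor
        · rintro hw rfl
          exact hw (SimpleGraph.Reachable.refl _)
        · intro hw hc
          exact hw (hiso v hv w hc)
      rw [heq]
      exact ⟨⟨x, hv.1.symm⟩, h.c2 v⟩
    · have heq : {w : V | ¬ (cut G {x}).Reachable v w} = nn G x := by
        ext w
        rw [Set.mem_ofPred_eq, hcl v hv w, not_not]
      rw [heq]
      exact ⟨⟨f, hf⟩, hx⟩

/-- an edge `xy` with the three connectivity properties gives a contractible bond `δ({x, y})` -/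
theorem edge_bond (h : Base G) (h3 : ∀ x : V, ∃ y z : V, y ≠ x ∧ z ≠ x ∧ y ≠ z) {x y : V}
    (hxy : G.Adj x y) (h1 : Conn G {z | z ≠ x ∧ z ≠ y}) (h2 : Conn G (insert y (nn G x)))
    (h2' : Conn G (insert x (nn G y))) : ContractibleBond G (cut G {x, y}) := by
  obtain ⟨f, hf⟩ := h.exists_far h3 x
  -- a vertex outside `{x, y}`
  obtain ⟨a0, b0, hab0, ha0, hb0⟩ := h.two_nbrs (h3 x)
  obtain ⟨g, hg, hgy⟩ : ∃ g, G.Adj x g ∧ g ≠ y := by
    by_cases hc : a0 = y
    · exact ⟨b0, hb0, fun hb => hab0 (hc.trans hb.symm)⟩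
    · exact ⟨a0, ha0, hc⟩
  have hXc : Conn G ({x, y}ᶜ : Set V) := by
    have : ({x, y}ᶜ : Set V) = {z | z ≠ x ∧ z ≠ y} := by
      ext z
      simp [not_or]
    rw [this]
    exact h1
  have hgX : g ∉ ({x, y} : Set V) := by
    intro hc
    rcases hc with hc | hc
    · exact hg.ne hc.symm
    · exact hgy hc
  obtain ⟨b1, b2, b3, b4⟩ := cut_bond (conn_pair hxy) hXc (x := x) (y := g) (by simp) hgX h.conn
  -- edges of the cut
  have hcut : ∀ a b, (cut G {x, y}).Adj a b ↔ G.Adj a b ∧
      (((a = x ∨ a = y) ∧ ¬ (b = x ∨ b = y)) ∨ (¬ (a = x ∨ a = y) ∧ (b = x ∨ b = y))) := by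
    intro a b
    rw [cut_adj]
    simp only [Set.mem_insert_iff, Set.mem_singleton_iff]
  -- the two nontrivial classes
  have hclass : ∀ {p q : V}, G.Adj p q → ({x, y} : Set V) = {p, q} → ∀ v w,
      (v = p ∨ (G.Adj p v ∧ v ≠ q)) →
      ((cut G {x, y}).Reachable v w ↔ (w = p ∨ (G.Adj p w ∧ w ≠ q))) := by
    intro p q hpq hpq' v w hv
    have hadj : ∀ a b, (cut G {x, y}).Adj a b ↔ G.Adj a b ∧
      (((a = p ∨ a = q) ∧ ¬ (b = p ∨ b = q)) ∨ (¬ (a = p ∨ a = q) ∧ (b = p ∨ b = q))) := by
      intro a b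
      rw [cut_adj, hpq']
      simp only [Set.mem_insert_iff, Set.mem_singleton_iff]
    have hr : ∀ v, (v = p ∨ (G.Adj p v ∧ v ≠ q)) → (cut G {x, y}).Reachable p v := by
      rintro v (rfl | ⟨hv1, hv2⟩)
      · exact SimpleGraph.Reachable.refl _
      · apply SimpleGraph.Adj.reachable
        rw [hadj]
        refine ⟨hv1, Or.inl ⟨Or.inl rfl, ?_⟩⟩
        rintro (hc | hc)
        · exact hv1.ne hc.symm
        · exact hv2 hc
    constructor
    · intro hvw
      have hinv : ∀ a b, (cut G {x, y}).Adj a b →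
          (a = p ∨ (G.Adj p a ∧ a ≠ q)) → (b = p ∨ (G.Adj p b ∧ b ≠ q)) := by
        intro a b hab ha
        rw [hadj] at hab
        obtain ⟨hab1, hab2⟩ := hab
        rcases hab2 with ⟨hc, hd⟩ | ⟨hc, hd⟩
        · rcases ha with ha | ha
          · subst ha
            exact Or.inr ⟨hab1, fun hb => hd (Or.inr hb)⟩
          · rcases hc with hc | hc
            · exact absurd hc ha.1.ne.symm
            · exact absurd hc ha.2
        · rcases ha with ha | ha
          · exact absurd (Or.inl ha) hc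
          · rcases hd with hd | hd
            · exact Or.inl hd
            · subst hd
              exact absurd hpq (h.tf p a b ha.1 hab1)
      exact (reachable_invariant (P := fun a => a = p ∨ (G.Adj p a ∧ a ≠ q))
        (fun a b hab => ⟨hinv a b hab, hinv b a hab.symm⟩) hvw).1 hv
    · intro hw
      exact (hr v hv).symm.trans (hr w hw)
  have hpair : ({x, y} : Set V) = {y, x} := Set.pair_comm x y
  -- isolated vertices
  have hiso : ∀ v, ¬ (v = x ∨ (G.Adj x v ∧ v ≠ y)) → ¬ (v = y ∨ (G.Adj y v ∧ v ≠ x)) →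
      ∀ w, (cut G {x, y}).Reachable v w → w = v := by
    intro v hv1 hv2 w hvw
    have hvx : v ≠ x := fun hc => hv1 (Or.inl hc)
    have hvy : v ≠ y := fun hc => hv2 (Or.inl hc)
    have hxv : ¬ G.Adj x v := fun hc => hv1 (Or.inr ⟨hc, hvy⟩)
    have hyv : ¬ G.Adj y v := fun hc => hv2 (Or.inr ⟨hc, hvx⟩)
    have hno : ∀ b, ¬ (cut G {x, y}).Adj v b := by
      intro b hb
      rw [hcut] at hb
      obtain ⟨hb1, hb2⟩ := hb
      rcases hb2 with ⟨hc, _⟩ | ⟨_, hc⟩
      · rcases hc with hc | hc
        · exact hvx hc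
        · exact hvy hc
      · rcases hc with hc | hc
        · exact hxv (hc ▸ hb1.symm)
        · exact hyv (hc ▸ hb1.symm)
    refine ((reachable_invariant (P := fun a => a = v) ?_ hvw).1 rfl)
    intro a b hab
    constructor
    · rintro rfl
      exact absurd hab (hno b)
    · rintro rfl
      exact absurd hab.symm (hno a)
  have hxcl := hclass hxy rfl
  have hycl := hclass hxy.symm hpair
  have hnxy : ¬ (cut G {x, y}).Reachable x y := by
    rw [hxcl x y (Or.inl rfl)]
    rintro (hc | hc)
    · exact hxy.ne hc.symm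
    · exact hc.2 rfl
  refine ⟨b1, b2, b3, b4, ⟨x, y, hnxy⟩, ?_, ?_⟩
  · -- two non-loop edges
    obtain ⟨a, ha, b, hb, hbC, _, hab⟩ := (h.c2 x).exists_edge
      (C := {w | G.Adj x w ∧ w ≠ y}) (x := g) (y := y) hg.ne.symm ⟨hg, hgy⟩
      hxy.ne.symm (fun hc => hc.2 rfl)
    have hb' : b ≠ x := hb
    have ha' : a ≠ x := ha.1.ne.symm
    refine ⟨x, y, a, b, hxy, hab, hnxy, ?_, fun hc => ha' hc.1.symm, fun hc => hb' hc.1.symm⟩
    rw [hxcl a b (Or.inr ha)]
    rintro (hc | hc)
    · exact hb' hc
    · exact hbC hc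
  · intro v
    rw [conn_induce_iff]
    by_cases hv1 : v = x ∨ (G.Adj x v ∧ v ≠ y)
    · have heq : {w : V | ¬ (cut G {x, y}).Reachable v w} = insert y (nn G x) := by
        ext w
        rw [Set.mem_ofPred_eq, hxcl v w hv1]
        constructor
        · intro hw
          push Not at hw
          by_cases hwy : w = y
          · exact Or.inl hwy
          · refine Or.inr ⟨hw.1, fun hc => hwy (hw.2 hc)⟩
        · intro hw
          rintro (hc | hc)
          · subst hc
            rcases hw with hw | hw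
            · exact hxy.ne hw
            · exact hw.1 rfl
          · rcases hw with hw | hw
            · exact hc.2 hw
            · exact hw.2 hc.1
      rw [heq]
      exact ⟨⟨y, Set.mem_insert _ _⟩, h2⟩
    · by_cases hv2 : v = y ∨ (G.Adj y v ∧ v ≠ x)
      · have heq : {w : V | ¬ (cut G {x, y}).Reachable v w} = insert x (nn G y) := by
          ext w
          rw [Set.mem_ofPred_eq, hycl v w hv2]
          constructor
          · intro hw
            push Not at hw
            by_cases hwx : w = x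
            · exact Or.inl hwx
            · refine Or.inr ⟨hw.1, fun hc => hwx (hw.2 hc)⟩
          · intro hw
            rintro (hc | hc)
            · subst hc
              rcases hw with hw | hw
              · exact hxy.ne hw.symm
              · exact hw.1 rfl
            · rcases hw with hw | hw
              · exact hc.2 hw
              · exact hw.2 hc.1
        rw [heq]
        exact ⟨⟨x, Set.mem_insert _ _⟩, h2'⟩
      · have heq : {w : V | ¬ (cut G {x, y}).Reachable v w} = {w | w ≠ v} := by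
          ext w
          constructor
          · rintro hw rfl
            exact hw (SimpleGraph.Reachable.refl _)
          · intro hw hc
            exact hw (hiso v hv1 hv2 w hc)
        rw [heq]
        exact ⟨⟨x, fun hc => hv1 (Or.inl hc.symm)⟩, h.c2 v⟩

/-- the standing assumptions from the hypotheses of the frozen statement -/
theorem base_of (hconn : G.Connected) (hc2 : ∀ v : V, (G.induce {w : V | w ≠ v}).Connected)
    (htf : G.CliqueFree 3) : Base G := by
  refine ⟨?_, ?_, fun v => ((conn_induce_iff _).1 (hc2 v)).2⟩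
  · intro a b c hab hbc hac
    classical
    apply htf {a, b, c}
    rw [SimpleGraph.is3Clique_triple_iff]
    exact ⟨hab, hac, hbc⟩
  · have h1 : ∀ x y, RS G Set.univ x y := by
      intro x y
      obtain ⟨p⟩ := hconn.preconnected x y
      induction p with
      | nil => exact RS.refl' _ _
      | @cons u v w huv _ ih =>
        exact RS.trans (RS.single huv (Set.mem_univ _) (Set.mem_univ _)) ih
    exact fun x _ y _ => h1 x y

theorem three_of_card [Fintype V] (h : 3 ≤ Fintype.card V) :
    ∀ x : V, ∃ y z : V, y ≠ x ∧ z ≠ x ∧ y ≠ z := by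
  classical
  intro x
  have h2 : 1 < (Finset.univ.erase x : Finset V).card := by
    rw [Finset.card_erase_of_mem (Finset.mem_univ _), Finset.card_univ]
    omega
  obtain ⟨y, hy, z, hz, hyz⟩ := Finset.one_lt_card.1 h2
  exact ⟨y, z, Finset.ne_of_mem_erase hy, Finset.ne_of_mem_erase hz, hyz⟩

end Run7.h325
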