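import Mathlib

set_option autoImplicit false

/-!
# Bonds whose contraction leaves a 2-connected graph

The definitions used by the hand-ins for MP_728309_co.  The predicate `ContractibleBond` is, word
for word, the conclusion of the frozen statement S09463.
-/

namespace Run7.h325

/-- `H` (a set of edges of the finite simple graph `G`, given as a subgraph on the same vertex set)
is a bond of `G` and contracting all its edges leaves a 2-connected graph.

The first four clauses say that `H` is a minimal nonempty set of edges of `G` whose deletion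
disconnects `G`.  The vertices of the contraction are the classes of `H.Reachable`; the last three
clauses say that there are at least two of them, at least two non-loop edges, and that deleting any
class leaves a connected graph. -/
def ContractibleBond {V : Type} (G H : SimpleGraph V) : Prop :=
  H ≤ G ∧ H ≠ ⊥ ∧ ¬ (G \ H).Connected ∧
    (∀ K : SimpleGraph V, K ≤ H → K ≠ ⊥ → ¬ (G \ K).Connected → K = H) ∧
    (∃ u v : V, ¬ H.Reachable u v) ∧
    (∃ a b c d : V, G.Adj a b ∧ G.Adj c d ∧
        ¬ H.Reachable a b ∧ ¬ H.Reachable c d ∧
        ¬ (a = c ∧ b = d) ∧ ¬ (a = d ∧ b = c)) ∧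
    (∀ v : V, (G.induce {w : V | ¬ H.Reachable v w}).Connected)

/-- the edges of `G` with exactly one end in `X` -/
def cut {V : Type} (G : SimpleGraph V) (X : Set V) : SimpleGraph V where
  Adj a b := G.Adj a b ∧ ((a ∈ X ∧ b ∉ X) ∨ (a ∉ X ∧ b ∈ X))
  symm := ⟨fun a b h => ⟨h.1.symm, by
    rcases h.2 with h | h
    · exact Or.inr ⟨h.2, h.1⟩
    · exact Or.inl ⟨h.2, h.1⟩⟩⟩
  loopless := ⟨fun a h => h.1.ne rfl⟩

end Run7.h325
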