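import Pool.Agent.Run7.h325.Basic

set_option autoImplicit false

/-!
# Heavy vertices

A vertex is heavy if its non-neighbourhood consists of twins of it and of one connected set which
is attached to all its neighbours.
-/

namespace Run7.h325

variable {V : Type*} {G : SimpleGraph V}

/-- `A` and `B` are joined by an edge -/
def Touch (G : SimpleGraph V) (A B : Set V) : Prop := ∃ a ∈ A, ∃ b ∈ B, G.Adj a b

theorem Touch.symm {A B : Set V} (h : Touch G A B) : Touch G B A := by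
  obtain ⟨a, ha, b, hb, hab⟩ := h
  exact ⟨b, hb, a, ha, hab.symm⟩

/-- no `K_5` minor, in terms of branch sets -/
def NoK5 (G : SimpleGraph V) : Prop :=
  ¬ ∃ f : Fin 5 → Set V, (∀ i, (G.induce (f i)).Connected) ∧
          (∀ i j, i ≠ j → Disjoint (f i) (f j)) ∧
          (∀ i j, i ≠ j → ∃ u ∈ f i, ∃ v ∈ f j, G.Adj u v)

theorem NoK5.false_of (h : NoK5 G) {A B C D E : Set V}
    (nA : A.Nonempty) (nB : B.Nonempty) (nC : C.Nonempty) (nD : D.Nonempty) (nE : E.Nonempty)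
    (cA : Conn G A) (cB : Conn G B) (cC : Conn G C) (cD : Conn G D) (cE : Conn G E)
    (dAB : Disjoint A B) (dAC : Disjoint A C) (dAD : Disjoint A D) (dAE : Disjoint A E)
    (dBC : Disjoint B C) (dBD : Disjoint B D) (dBE : Disjoint B E)
    (dCD : Disjoint C D) (dCE : Disjoint C E) (dDE : Disjoint D E)
    (tAB : Touch G A B) (tAC : Touch G A C) (tAD : Touch G A D) (tAE : Touch G A E)
    (tBC : Touch G B C) (tBD : Touch G B D) (tBE : Touch G B E)
    (tCD : Touch G C D) (tCE : Touch G C E) (tDE : Touch G D E) : False := by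
  apply h
  refine ⟨![A, B, C, D, E], ?_, ?_, ?_⟩
  · intro i
    rw [conn_induce_iff]
    fin_cases i
    · exact ⟨nA, cA⟩
    · exact ⟨nB, cB⟩
    · exact ⟨nC, cC⟩
    · exact ⟨nD, cD⟩
    · exact ⟨nE, cE⟩
  · intro i j hij
    fin_cases i <;> fin_cases j <;>
      first
        | exact absurd rfl hij
        | assumption
        | (apply Disjoint.symm; assumption)
  · intro i j hij
    fin_cases i <;> fin_cases j <;>
      first
        | exact absurd rfl hij
        | assumption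
        | (apply Touch.symm; assumption)

/-- the basic `K_5`: two twins `w, w'` with common neighbours `a, b, c`, and two adjacent disjoint
connected sets `P, Q`, both attached to `a`, `b` and `c`. -/
theorem NoK5.false_of_twins (h : NoK5 G) {w w' a b c : V} (hw : w ≠ w')
    (hab : a ≠ b) (hac : a ≠ c) (hbc : b ≠ c)
    (wa : G.Adj w a) (wb : G.Adj w b) (wc : G.Adj w c)
    (wa' : G.Adj w' a) (wb' : G.Adj w' b) (wc' : G.Adj w' c)
    {P Q : Set V} (nP : P.Nonempty) (nQ : Q.Nonempty) (cP : Conn G P) (cQ : Conn G Q)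
    (dPQ : ∀ x ∈ P, x ∉ Q)
    (oP : ∀ x ∈ P, x ≠ a ∧ x ≠ b ∧ x ≠ c ∧ x ≠ w ∧ x ≠ w')
    (oQ : ∀ x ∈ Q, x ≠ a ∧ x ≠ b ∧ x ≠ c ∧ x ≠ w ∧ x ≠ w')
    (Pa : ∃ x ∈ P, G.Adj x a) (Pb : ∃ x ∈ P, G.Adj x b) (Pc : ∃ x ∈ P, G.Adj x c)
    (Qa : ∃ x ∈ Q, G.Adj x a) (Qb : ∃ x ∈ Q, G.Adj x b) (Qc : ∃ x ∈ Q, G.Adj x c)
    (PQ : ∃ x ∈ P, ∃ y ∈ Q, G.Adj x y) : False := by
  have dd : ∀ {S T : Set V}, (∀ x ∈ S, x ∉ T) → Disjoint S T := by
    intro S T hST
    rw [Set.disjoint_left]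
    exact fun x hx => hST x hx
  obtain ⟨pa, hpa, hpa'⟩ := Pa
  obtain ⟨pb, hpb, hpb'⟩ := Pb
  obtain ⟨pc, hpc, hpc'⟩ := Pc
  obtain ⟨qa, hqa, hqa'⟩ := Qa
  obtain ⟨qb, hqb, hqb'⟩ := Qb
  obtain ⟨qc, hqc, hqc'⟩ := Qc
  refine h.false_of (A := {a, w}) (B := {b, w'}) (C := {c}) (D := P) (E := Q)
    ⟨a, by simp⟩ ⟨b, by simp⟩ ⟨c, rfl⟩ nP nQ (conn_pair wa.symm) (conn_pair wb'.symm)
    (conn_singleton c) cP cQ ?_ ?_ ?_ ?_ ?_ ?_ ?_ ?_ ?_ ?_
    ⟨w, by simp, b, by simp, wb⟩ ⟨w, by simp, c, rfl, wc⟩ ⟨a, by simp, pa, hpa, hpa'.symm⟩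
    ⟨a, by simp, qa, hqa, hqa'.symm⟩ ⟨w', by simp, c, rfl, wc'⟩ ⟨b, by simp, pb, hpb, hpb'.symm⟩
    ⟨b, by simp, qb, hqb, hqb'.symm⟩ ⟨c, rfl, pc, hpc, hpc'.symm⟩ ⟨c, rfl, qc, hqc, hqc'.symm⟩ PQ
  · refine dd ?_
    intro x hx hx'
    simp only [Set.mem_insert_iff, Set.mem_singleton_iff] at hx hx'
    rcases hx with rfl | rfl <;> rcases hx' with rfl | rfl
    · exact hab rfl
    · exact wa'.ne rfl
    · exact wb.ne rfl
    · exact hw rfl
  · refine dd ?_
    intro x hx hx'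
    simp only [Set.mem_insert_iff, Set.mem_singleton_iff] at hx hx'
    rcases hx with rfl | rfl
    · exact hac hx'
    · exact wc.ne hx'
  · refine dd ?_
    intro x hx hx'
    simp only [Set.mem_insert_iff, Set.mem_singleton_iff] at hx
    rcases hx with rfl | rfl
    · exact (oP _ hx').1 rfl
    · exact (oP _ hx').2.2.2.1 rfl
  · refine dd ?_
    intro x hx hx'
    simp only [Set.mem_insert_iff, Set.mem_singleton_iff] at hx
    rcases hx with rfl | rfl
    · exact (oQ _ hx').1 rfl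
    · exact (oQ _ hx').2.2.2.1 rfl
  · refine dd ?_
    intro x hx hx'
    simp only [Set.mem_insert_iff, Set.mem_singleton_iff] at hx hx'
    rcases hx with rfl | rfl
    · exact hbc hx'
    · exact wc'.ne hx'
  · refine dd ?_
    intro x hx hx'
    simp only [Set.mem_insert_iff, Set.mem_singleton_iff] at hx
    rcases hx with rfl | rfl
    · exact (oP _ hx').2.1 rfl
    · exact (oP _ hx').2.2.2.2 rfl
  · refine dd ?_
    intro x hx hx'
    simp only [Set.mem_insert_iff, Set.mem_singleton_iff] at hx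
    rcases hx with rfl | rfl
    · exact (oQ _ hx').2.1 rfl
    · exact (oQ _ hx').2.2.2.2 rfl
  · refine dd ?_
    intro x hx hx'
    have : x = c := hx
    subst this
    exact (oP _ hx').2.2.1 rfl
  · refine dd ?_
    intro x hx hx'
    have : x = c := hx
    subst this
    exact (oQ _ hx').2.2.1 rfl
  · exact dd dPQ

/-- `v` is heavy with witness `W` -/
structure HW (G : SimpleGraph V) (v : V) (W : Set V) : Prop where
  nonempty : W.Nonempty
  conn : Conn G W
  not_mem : v ∉ W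
  nbr_not_mem : ∀ s, G.Adj v s → s ∉ W
  att : ∀ s, G.Adj v s → ∃ w ∈ W, G.Adj s w
  twin : ∀ y, y ∉ W → ¬ G.Adj v y → ∀ z, G.Adj y z ↔ G.Adj v z
  other : ∃ v', v' ≠ v ∧ v' ∉ W ∧ ¬ G.Adj v v'

/-- `v` is heavy -/
def Heavy (G : SimpleGraph V) (v : V) : Prop := ∃ W, HW G v W

theorem HW.nbr {v : V} {W : Set V} (h : HW G v W) {w y : V} (hw : w ∈ W) (hy : y ∉ W)
    (hwy : G.Adj w y) : G.Adj v y := by
  by_contra hc
  have := (h.twin y hy hc w).1 hwy.symm
  exact h.nbr_not_mem w this hw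

theorem HW.twin' {v x : V} {W : Set V} (h : HW G v W) (hx : x ∉ W) (hvx : ¬ G.Adj v x)
    (hne : x ≠ v) : HW G x W where
  nonempty := h.nonempty
  conn := h.conn
  not_mem := hx
  nbr_not_mem := fun s hs => h.nbr_not_mem s ((h.twin x hx hvx s).1 hs)
  att := fun s hs => h.att s ((h.twin x hx hvx s).1 hs)
  twin := by
    intro y hy hxy z
    have hvy : ¬ G.Adj v y := fun hc => hxy ((h.twin x hx hvx y).2 hc)
    rw [h.twin y hy hvy z, h.twin x hx hvx z]
  other := ⟨v, hne.symm, h.not_mem, fun hc => hvx hc.symm⟩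

/-- The standing assumptions: `G` is 2-connected and triangle-free. -/
structure Base (G : SimpleGraph V) : Prop where
  tf : ∀ a b c, G.Adj a b → G.Adj b c → ¬ G.Adj a c
  conn : Conn G Set.univ
  c2 : ∀ v, Conn G {w | w ≠ v}

/-- in a 2-connected graph no star leaves a connected rest, and no edge is contractible -/
structure Bad (G : SimpleGraph V) : Prop extends Base G where
  ns : ∀ x, ¬ Conn G (nn G x)

theorem Bad.exists_far (h : Bad G) (x : V) : ∃ y, y ∈ nn G x := by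
  by_contra hc
  push Not at hc
  apply h.ns x
  intro a ha
  exact absurd ha (hc a)

/-- under `Bad` every vertex has two distinct neighbours -/
theorem Bad.two_nbrs (h : Bad G) (x : V) : ∃ a b, a ≠ b ∧ G.Adj x a ∧ G.Adj x b := by
  obtain ⟨y, hy⟩ := h.exists_far x
  obtain ⟨a, ha, b, _, hb, _, hab⟩ := h.conn.exists_edge (C := {x}) (x := x) (y := y)
    (Set.mem_univ _) rfl (Set.mem_univ _) hy.1
  have hax : a = x := ha
  subst hax
  have hba : b ≠ a := hb
  have hyb : y ≠ b := by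
    rintro rfl
    exact hy.2 hab
  obtain ⟨c, hc, d, hd, hdc, _, hcd⟩ := (h.c2 b).exists_edge (C := {a}) (x := a) (y := y)
    hba.symm rfl hyb hy.1
  have hca : c = a := hc
  subst hca
  exact ⟨b, d, fun hbd => hd hbd.symm, hab, hcd⟩

/-- For every vertex `r` with a vertex at distance at least two there is such a vertex `u` which is
heavy or whose closed neighbourhood has a connected complement.  (No minor hypothesis.) -/
theorem Base.exists_star_or_heavy [Finite V] (h : Base G) {r u0 : V} (hu0 : u0 ∈ nn G r) :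
    ∃ u, r ∈ nn G u ∧ (Conn G (nn G u) ∨ Heavy G u) := by
  classical
  have hne : ({u | r ∈ nn G u} : Set V).Nonempty :=
    ⟨u0, ⟨hu0.1.symm, fun hc => hu0.2 hc.symm⟩⟩
  obtain ⟨u, hu, hmax⟩ := Set.exists_max_image {u | r ∈ nn G u}
    (fun u => (cmp G (nn G u) r).ncard) (Set.toFinite _) hne
  have hu' : r ∈ nn G u := hu
  refine ⟨u, hu', ?_⟩
  by_cases hconn : Conn G (nn G u)
  · exact Or.inl hconn
  right
  set Z := cmp G (nn G u) r with hZ
  have hrZ : r ∈ Z := mem_cmp_self _ _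
  have hZc : Conn G Z := cmp_conn _ _
  have hZs : Z ⊆ nn G u := cmp_subset hu'
  -- attachments of `Z` are neighbours of `u`
  have hii : ∀ z ∈ Z, ∀ t, t ∉ Z → G.Adj z t → G.Adj u t := by
    intro z hz t ht hzt
    by_contra hc
    apply ht
    refine cmp_closed hu' hz hzt ⟨?_, hc⟩
    rintro rfl
    exact (hZs hz).2 hzt.symm
  -- the same for every vertex outside `Z` and its neighbourhood
  have hiii : ∀ y, y ∉ Z → (∀ z ∈ Z, ¬ G.Adj z y) → ∀ z ∈ Z, ∀ t, t ∉ Z → G.Adj z t →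
      G.Adj y t := by
    intro y hy hyZ z hz t ht hzt
    have hZy : Z ⊆ nn G y := by
      intro q hq
      refine ⟨?_, fun hc => hyZ q hq hc.symm⟩
      rintro rfl
      exact hy hq
    have hry : r ∈ nn G y := hZy hrZ
    have hsub : Z ⊆ cmp G (nn G y) r := hZc.subset_cmp hZy hrZ
    have hle := hmax y hry
    have heq : Z = cmp G (nn G y) r :=
      Set.eq_of_subset_of_ncard_le hsub hle (Set.toFinite _)
    by_contra hc
    apply ht
    rw [heq]
    refine cmp_closed hry (heq ▸ hz) hzt ⟨?_, hc⟩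
    rintro rfl
    exact hyZ z hz hzt
  have huZ : u ∉ Z := fun hc => (hZs hc).1 rfl
  have huZ' : ∀ z ∈ Z, ¬ G.Adj z u := fun z hz hc => (hZs hz).2 hc.symm
  obtain ⟨z0, hz0, t0, _, ht0, _, hzt0⟩ := h.conn.exists_edge (C := Z) (x := r) (y := u)
    (Set.mem_univ _) hrZ (Set.mem_univ _) huZ
  -- a vertex outside `Z` and its neighbourhood is adjacent only to attachments
  have hv : ∀ y, y ∉ Z → (∀ z ∈ Z, ¬ G.Adj z y) → ∀ q, G.Adj y q → q ∉ Z ∧ ∃ z ∈ Z, G.Adj z q := by
    intro y hy hyZ q hyq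
    have hqZ : q ∉ Z := fun hc => hyZ q hc hyq.symm
    refine ⟨hqZ, ?_⟩
    by_contra hc
    push Not at hc
    have h1 := hiii y hy hyZ z0 hz0 t0 ht0 hzt0
    have h2 := hiii q hqZ hc z0 hz0 t0 ht0 hzt0
    exact h.tf y q t0 hyq h2 h1
  refine ⟨Z, ?_⟩
  refine ⟨⟨r, hrZ⟩, hZc, huZ, ?_, ?_, ?_, ?_⟩
  · intro s hs hsZ
    exact (hZs hsZ).2 hs
  · intro s hs
    obtain ⟨_, z, hz, hzs⟩ := hv u huZ huZ' s hs
    exact ⟨z, hz, hzs.symm⟩
  · intro y hy hyu z
    have hyZ : ∀ z ∈ Z, ¬ G.Adj z y := fun z hz hc => hyu (hii z hz y hy hc)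
    constructor
    · intro hyz
      obtain ⟨hzZ, q, hq, hqz⟩ := hv y hy hyZ z hyz
      exact hii q hq z hzZ hqz
    · intro huz
      obtain ⟨hzZ, q, hq, hqz⟩ := hv u huZ huZ' z huz
      exact hiii y hy hyZ q hq z hzZ hqz
  · by_contra hc
    push Not at hc
    apply hconn
    have : nn G u = Z := by
      apply Set.Subset.antisymm _ hZs
      intro y hy
      by_contra hyZ
      exact hy.2 (hc y hy.1 hyZ)
    rw [this]
    exact hZc

end Run7.h325
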